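import Pool.Agent.Lib.PTC.Arith
import Pool.Agent.Lib.PRam.Prob

/-! Probabilistic polynomial time algorithms from polynomial time functions: toss all coins first. -/

set_option autoImplicit false
set_option linter.unusedVariables false

open scoped ENNReal

namespace Pool.Agent.Lib.PTC

open PRam

variable {S : List ℤ → ℕ}

/-! ### Coins and numbers -/

/-- The number with the binary digits `β`, after the number `a`. -/
def cval (a : ℕ) : List Bool → ℕ
  | [] => a
  | b :: β => cval (2 * a + (if b then 1 else 0)) β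

theorem cval_eq (a : ℕ) (β : List Bool) : cval a β = a * 2 ^ β.length + cval 0 β := by
  induction β generalizing a with
  | nil => simp [cval]
  | cons b β ih =>
    rw [cval, cval, ih, ih (2 * 0 + _), List.length_cons, pow_succ]
    ring

theorem cval_lt (β : List Bool) : cval 0 β < 2 ^ β.length := by
  induction β with
  | nil => simp [cval]
  | cons b β ih =>
    rw [cval, cval_eq, List.length_cons, pow_succ]
    have h : (2 * 0 + (if b then 1 else 0) : ℕ) ≤ 1 := by cases b <;> simp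
    nlinarith

theorem cval_inj {β γ : List Bool} (hl : β.length = γ.length) (h : cval 0 β = cval 0 γ) : β = γ := by
  induction β generalizing γ with
  | nil =>
    cases γ with
    | nil => rfl
    | cons _ _ => simp at hl
  | cons b β ih =>
    cases γ with
    | nil => simp at hl
    | cons c γ =>
      have hl' : β.length = γ.length := by simpa using hl
      rw [cval, cval, cval_eq, cval_eq (2 * 0 + _) γ, hl'] at h
      have h1 := cval_lt β
      have h2 := cval_lt γ
      rw [hl'] at h1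
      cases b <;> cases c
      · have h3 : cval 0 β = cval 0 γ := by simpa using h
        rw [ih hl' h3]
      · exfalso
        simp only [Bool.false_eq_true, if_false, if_true] at h
        omega
      · exfalso
        simp only [Bool.false_eq_true, if_false, if_true] at h
        omega
      · have h3 : cval 0 β = cval 0 γ := by simpa using h
        rw [ih hl' h3]

theorem card_cval (k : ℕ) (p : ℕ → Prop) [DecidablePred p] :
    (Finset.univ.filter fun β : List.Vector Bool k => p (cval 0 β.toList)).card =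
      ((Finset.range (2 ^ k)).filter p).card := by
  classical
  have hinj : Function.Injective fun β : List.Vector Bool k => cval 0 β.toList := by
    intro β γ h
    exact Subtype.ext (cval_inj (by rw [List.Vector.length_val, List.Vector.length_val]) h)
  have himg : (Finset.univ : Finset (List.Vector Bool k)).image (fun β => cval 0 β.toList) =
      Finset.range (2 ^ k) := by
    refine Finset.eq_of_subset_of_card_le ?_ ?_
    · intro z hz
      obtain ⟨β, -, rfl⟩ := Finset.mem_image.1 hz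
      rw [Finset.mem_range]
      have := cval_lt β.toList
      rwa [List.Vector.toList_length] at this
    · rw [Finset.card_range, Finset.card_image_of_injective _ hinj, Finset.card_univ, card_vector,
        Fintype.card_bool]
  rw [← himg, Finset.filter_image, Finset.card_image_of_injective _ hinj]

/-! ### The program -/

/-- A pair of numbers coding an integer. -/
def zout (p : ℕ × ℕ) : ℤ := if p.1 = 0 then (p.2 : ℤ) else -(p.2 : ℤ)

/-- Toss the coins: register `1` holds the number of tosses, the result is in the register `3`. -/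
def toss : Cmd := .loop (.var 1) (.seq (.assign 1 (.sub (.var 1) (.lit 1)))
  (.seq (.coin 2) (.assign 3 (.add (.mul (.lit 2) (.var 3)) (.var 2)))))

theorem run_toss {W : ℕ} (σ₀ σ : St) (β : List Bool) (a : ℕ) (h1 : σ.reg 1 = (β.length : ℤ))
    (h3 : σ.reg 3 = (a : ℤ)) (hW : cval a β + β.length + 2 ≤ W) (hm : σ.mem = σ₀.mem) (h0 : σ.reg 0 = σ₀.reg 0) :
    Run W toss σ β (β.length * (2 + 2 + (6 + (1 + 9))) + (2 + 1)) (fun σ' => σ'.mem = σ₀.mem ∧
      σ'.reg 0 = σ₀.reg 0 ∧ σ'.reg 3 = (cval a β : ℤ)) := by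
  have hle : ∀ (β : List Bool) (a : ℕ), a ≤ cval a β := by
    intro β
    induction β with
    | nil => exact fun a => le_rfl
    | cons b β ih => exact fun a => le_trans (by omega) (ih (2 * a + (if b then 1 else 0)))
  obtain ⟨V, hV⟩ : ∃ V, V = cval a β := ⟨_, rfl⟩
  obtain ⟨n, hn⟩ : ∃ n, n = β.length := ⟨_, rfl⟩
  rw [← hV, ← hn] at hW ⊢
  refine (Run.loopC (e := .var 1) (fun k γ σ' => σ'.mem = σ₀.mem ∧ σ'.reg 0 = σ₀.reg 0 ∧ k = γ.length ∧
    k ≤ n ∧ σ'.reg 1 = (k : ℤ) ∧ ∃ a : ℕ, σ'.reg 3 = (a : ℤ) ∧ cval a γ = V) (6 + (1 + 9)) n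
    ⟨hm, h0, hn, le_rfl, by rw [hn]; exact h1, a, h3, hV.symm⟩ (fun _ _ _ _ => trivial) ?_ ?_).mono le_rfl ?_
  · rintro k γ σ₁ ⟨-, -, rfl, -, h, -⟩ he
    have he' : σ₁.reg 1 = 0 := he
    rw [h] at he'
    exact List.length_eq_zero_iff.1 (by exact_mod_cast he')
  · rintro k γ σ₁ ⟨g1, g2, g3, g4, g5, a, g6, g7⟩ he
    cases γ with
    | nil =>
      exfalso
      apply he
      show σ₁.reg 1 = 0
      rw [g5, g3]
      rfl
    | cons b γ =>
      rw [List.length_cons] at g3
      subst g3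
      refine ⟨γ.length, [b], γ, rfl, rfl, ?_⟩
      have e1 : (Expr.sub (.var 1) (.lit 1)).eval σ₁ = (γ.length : ℤ) := by
        show σ₁.reg 1 - 1 = _
        rw [g5]
        push_cast
        ring
      refine Run.seqL (T₁ := 6) (Run.assign ⟨trivial, ?_, ?_⟩ le_rfl ?_) le_rfl
      · show (1 : ℤ).natAbs ≤ W
        rw [Int.natAbs_one]
        omega
      · have e1' : (Expr.var 1).eval σ₁ - (Expr.lit 1).eval σ₁ = (γ.length : ℤ) := e1
        rw [e1', Int.natAbs_natCast]
        omega
      rw [e1]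
      have r : Run W (.coin 2) (σ₁.set 1 (γ.length : ℤ)) [b] 1 (fun σ₂ => σ₂ =
          (σ₁.set 1 (γ.length : ℤ)).set 2 (if b then 1 else 0)) := ⟨_, _, le_rfl, .coin _ 2 b, rfl⟩
      refine Run.seqR (r.mono le_rfl fun σ₂ h₂ => ?_) le_rfl
      subst h₂
      rw [cval] at g7
      have hb := hle γ (2 * a + (if b then 1 else 0))
      have e3 : (Expr.mul (.lit 2) (.var 3)).eval ((σ₁.set 1 (γ.length : ℤ)).set 2
          (if b then 1 else 0)) = ((2 * a : ℕ) : ℤ) := by
        show 2 * ((σ₁.set 1 (γ.length : ℤ)).set 2 (if b then 1 else 0)).reg 3 = _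
        rw [St.set_reg, if_neg (by omega), St.set_reg, if_neg (by omega), g6]
        push_cast
        rfl
      have e2 : (Expr.add (.mul (.lit 2) (.var 3)) (.var 2)).eval ((σ₁.set 1 (γ.length : ℤ)).set 2
          (if b then 1 else 0)) = ((2 * a + (if b then 1 else 0) : ℕ) : ℤ) := by
        show (Expr.mul (.lit 2) (.var 3)).eval ((σ₁.set 1 (γ.length : ℤ)).set 2
          (if b then 1 else 0)) + ((σ₁.set 1 (γ.length : ℤ)).set 2 (if b then 1 else 0)).reg 2 = _
        rw [e3, St.set_reg, if_pos rfl]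
        push_cast
        rfl
      refine Run.assign ⟨⟨?_, trivial, ?_⟩, trivial, ?_⟩ le_rfl ?_
      · show (2 : ℤ).natAbs ≤ W
        have : (2 : ℤ).natAbs = 2 := rfl
        omega
      · have e3' : (Expr.lit 2).eval ((σ₁.set 1 (γ.length : ℤ)).set 2 (if b then 1 else 0)) *
          (Expr.var 3).eval ((σ₁.set 1 (γ.length : ℤ)).set 2 (if b then 1 else 0)) =
            ((2 * a : ℕ) : ℤ) := e3
        rw [e3', Int.natAbs_natCast]
        omega
      · have e2' : (Expr.mul (.lit 2) (.var 3)).eval ((σ₁.set 1 (γ.length : ℤ)).set 2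
          (if b then 1 else 0)) + (Expr.var 2).eval ((σ₁.set 1 (γ.length : ℤ)).set 2
          (if b then 1 else 0)) = ((2 * a + (if b then 1 else 0) : ℕ) : ℤ) := e2
        rw [e2', Int.natAbs_natCast]
        omega
      rw [e2]
      refine ⟨g1, ?_, rfl, by omega, ?_, _, ?_, g7⟩
      · rw [St.set_reg, if_neg (by omega), St.set_reg, if_neg (by omega), St.set_reg,
          if_neg (by omega)]
        exact g2
      · rw [St.set_reg, if_neg (by omega), St.set_reg, if_neg (by omega), St.set_reg, if_pos rfl]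
      · rw [St.set_reg, if_pos rfl]
  · rintro σ₁ ⟨-, k, g1, g2, g3, g4, g5, a, g6, g7⟩
    exact ⟨g1, g2, by rw [g6, ← g7]; rfl⟩

/-- The output command. -/
def fin0 : Cmd := .ite (.var 4) (.assign 0 (.sub (.lit 0) (.var 5))) (.assign 0 (.var 5))

theorem run_fin0 {W : ℕ} (σ : St) (p : ℕ × ℕ) (h4 : σ.reg 4 = (p.1 : ℤ)) (h5 : σ.reg 5 = (p.2 : ℤ))
    (hW : p.2 ≤ W) : Run W fin0 σ [] 10 (fun σ' => σ'.reg 0 = zout p) := by
  refine Run.ite (T' := 6) trivial (fun h => ?_) (fun h => ?_) le_rfl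
  · have h' : σ.reg 4 ≠ 0 := h
    rw [h4] at h'
    have e : (Expr.sub (.lit 0) (.var 5)).eval σ = -(p.2 : ℤ) := by
      show 0 - σ.reg 5 = _
      rw [h5, zero_sub]
    refine Run.assign ⟨Nat.zero_le _, trivial, ?_⟩ le_rfl ?_
    · have e' : (Expr.lit 0).eval σ - (Expr.var 5).eval σ = -(p.2 : ℤ) := e
      rw [e', Int.natAbs_neg, Int.natAbs_natCast]
      exact hW
    · rw [e, St.set_reg, if_pos rfl, zout, if_neg (by exact_mod_cast h')]
  · have h' : σ.reg 4 = 0 := h
    rw [h4] at h'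
    have e : (Expr.var 5).eval σ = (p.2 : ℤ) := h5
    refine Run.assign trivial (by show 2 + 2 ≤ 6; omega) ?_
    rw [e, St.set_reg, if_pos rfl, zout, if_pos (by exact_mod_cast h')]

/-- The program of the algorithm: all coins are tossed at the beginning. -/
theorem exists_cmd {b : List ℤ → ℕ} {out : List ℤ → ℕ → ℕ × ℕ}
    (hb : Comp S fun x (_ : Unit) => b x) (tb : Tm S fun x (_ : Unit) => b x) (ho : Comp S out) :
    ∃ (c : Cmd) (E : ℕ), 0 < E ∧ ∀ (x : List ℤ) (L : ℕ), Adm S x L → ∀ β : List Bool, β.length = b x →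
      Run (2 ^ L ^ E) c (init x) β (L ^ E) (fun σ' => σ'.reg 0 = zout (out x (cval 0 β))) := by
  rw [Comp.nat] at hb
  have ho1 := Comp.fst ho
  have ho2 := Comp.snd ho
  rw [Comp.nat] at ho1 ho2
  obtain ⟨eb, bb, pb⟩ := hb
  obtain ⟨e1, b1, p1⟩ := ho1
  obtain ⟨e2, b2, p2⟩ := ho2
  obtain ⟨et, ht⟩ := tb
  obtain ⟨cb, hcb⟩ := pb (fun _ => 1) 1 6 (fun i => i.elim0) (by omega) (by omega) (fun i => i.elim0)
  obtain ⟨c1, hc1⟩ := p1 (fun _ => 3) 4 6 (fun _ => by omega) (by omega) (by omega) (fun _ => by omega)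
  obtain ⟨c2, hc2⟩ := p2 (fun _ => 3) 5 6 (fun _ => by omega) (by omega) (by omega) (fun _ => by omega)
  obtain ⟨D, hD⟩ := ((PB.pow eb).add (PB.const 3)).add ((((PB.pow et).mul
    (PB.const (2 + 2 + (6 + (1 + 9))))).add (PB.const (2 + 1))).add
    ((PB.pow ((et + 1) * e1)).add ((PB.pow ((et + 1) * e2)).add (PB.const 10))))
  obtain ⟨E, hE⟩ : ∃ E, E = D + eb + (et + 3) + (et + 1) * e1 + (et + 1) * e2 := ⟨_, rfl⟩
  refine ⟨.seq cb (.seq (.assign 3 (.lit 0)) (.seq toss (.seq c1 (.seq c2 fin0)))), E,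
    by omega, fun x L hL β hβ => ?_⟩
  have hL2 := hL.two
  have hbL : b x ≤ L ^ et := ht x L () hL (lt_unit.2 trivial)
  have hbL' : b x ≤ L ^ (et + 1) := hbL.trans (pw hL2 (by omega))
  have hom : cval 0 β < 2 ^ L ^ (et + 1) := by
    have h1 := cval_lt β
    rw [hβ] at h1
    exact h1.trans_le (Nat.pow_le_pow_right (by omega) hbL')
  have hσ : Env x (init x) := ⟨by rw [init_reg, if_pos rfl], fun i => init_mem x i⟩
  have hWt : cval 0 β + β.length + 2 ≤ 2 ^ L ^ E := by
    have h1 : β.length < 2 ^ L ^ (et + 1) := by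
      rw [hβ]
      exact hbL'.trans_lt Nat.lt_two_pow_self
    have h2 : 2 ≤ L ^ (et + 1) := hL2.trans (Nat.le_self_pow (by omega) L)
    have h3 := add_lt' h2 hom h1
    have h4 : 2 ≤ 2 ^ (L ^ (et + 1) + L ^ (et + 1)) := by
      calc 2 = 2 ^ 1 := rfl
        _ ≤ 2 ^ (L ^ (et + 1) + L ^ (et + 1)) := Nat.pow_le_pow_right (by omega) (by omega)
    have h5 : L ^ (et + 1) + L ^ (et + 1) + 1 ≤ L ^ (et + 3) := by
      have g1 := Nat.mul_le_mul_left (L ^ (et + 1)) hL2
      have g2 := Nat.mul_le_mul_left (L ^ (et + 1 + 1)) hL2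
      rw [← pow_succ] at g1 g2
      have g3 : L ^ (et + 1 + 1 + 1) = L ^ (et + 3) := rfl
      omega
    calc cval 0 β + β.length + 2 ≤ 2 ^ (L ^ (et + 1) + L ^ (et + 1)) +
          2 ^ (L ^ (et + 1) + L ^ (et + 1)) := by omega
      _ = 2 ^ (L ^ (et + 1) + L ^ (et + 1) + 1) := by rw [pow_succ]; ring
      _ ≤ 2 ^ L ^ (et + 3) := Nat.pow_le_pow_right (by omega) h5
      _ ≤ 2 ^ L ^ E := ppw hL2 (by omega)
  have r1 := hcb x L (fun i => i.elim0) (init x) hL (fun i => i.elim0) hσ (fun i => i.elim0)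
  refine Run.seqL (T₁ := L ^ eb) (T₂ := 3 + ((L ^ et * (2 + 2 + (6 + (1 + 9))) + (2 + 1)) +
    (L ^ ((et + 1) * e1) + (L ^ ((et + 1) * e2) + 10))))
    (run_mono r1 (ppw hL2 (by omega)) le_rfl fun σ₁ h₁ => ?_)
    (le_trans (le_of_eq (by ring)) ((hD L hL2).trans (pw hL2 (by omega))))
  refine Run.seqL (T₁ := 3) (Run.assign (Nat.zero_le _) le_rfl ?_) le_rfl
  have e0 : (Expr.lit 0).eval σ₁ = 0 := rfl
  rw [e0]
  have r3 := run_toss (W := 2 ^ L ^ E) (init x) (σ₁.set 3 0) β 0
    (by rw [St.set_reg, if_neg (by omega), h₁.2.1, hβ]) (by rw [St.set_reg, if_pos rfl]; rfl) hWt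
    (by rw [St.set_mem]; exact h₁.1) (by rw [St.set_reg, if_neg (by omega)]; exact h₁.2.2 0 (by omega) (by omega))
  refine Run.seqR (r3.mono (by rw [hβ]; gcongr) fun σ₂ h₂ => ?_) le_rfl
  have hσ₂ : Env x σ₂ := env_of hσ h₂.1 h₂.2.1
  have r4 := hc1 x (L ^ (et + 1)) (fun _ => cval 0 β) σ₂ (hL.pow (by omega)) (fun _ => hom) hσ₂
    (fun _ => h₂.2.2)
  rw [← pow_mul] at r4
  refine Run.seqL (run_mono r4 (ppw hL2 (by omega)) le_rfl fun σ₃ h₃ => ?_) le_rfl
  have hσ₃ : Env x σ₃ := hσ₂.put (by omega) (by omega) h₃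
  have r5 := hc2 x (L ^ (et + 1)) (fun _ => cval 0 β) σ₃ (hL.pow (by omega)) (fun _ => hom) hσ₃
    (fun _ => by rw [h₃.2.2 3 (by omega) (by omega)]; exact h₂.2.2)
  rw [← pow_mul] at r5
  refine Run.seqL (run_mono r5 (ppw hL2 (by omega)) le_rfl fun σ₄ h₄ => ?_) le_rfl
  refine run_fin0 σ₄ (out x (cval 0 β)) ?_ ?_ ?_
  · rw [h₄.2.2 4 (by omega) (by omega), h₃.2.1]
    rfl
  · rw [h₄.2.1]
    rfl
  · have h6 := b2 x (L ^ (et + 1)) (fun _ => cval 0 β) (hL.pow (by omega)) (fun _ => hom)
    rw [← pow_mul] at h6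
    exact h6.le.trans (ppw hL2 (by omega))

/-- **The probabilistic algorithm**: `b x` coins are tossed, giving a random number `om < 2 ^ b x`; the
output is `zout (out x om)`. -/
theorem exists_prog {b : List ℤ → ℕ} {out : List ℤ → ℕ → ℕ × ℕ}
    (hb : Comp S fun x (_ : Unit) => b x) (tb : Tm S fun x (_ : Unit) => b x) (ho : Comp S out) :
    ∃ (P : List Instr) (C : ℕ), ∀ x : List ℤ, 2 ≤ S x → Valid x (S x) →
      (∀ (good : ℤ → Prop) [DecidablePred fun om => good (zout (out x om))],
        probThat P x good =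
          (((Finset.range (2 ^ b x)).filter fun om => good (zout (out x om))).card : ℝ≥0∞) / 2 ^ b x) ∧
      TimeLe P x ((S x : ℝ) ^ C) := by
  obtain ⟨c, E, hE, hc⟩ := exists_cmd hb tb ho
  obtain ⟨K, hK⟩ := exists_vars c
  obtain ⟨D, hD⟩ := (PB.pow E).mul (((PB.const 2).add (PB.pow E)).mul ((PB.const 2).add (PB.pow E)))
  refine ⟨compC (K + 1) 0 c, D, fun x hx hV => ?_⟩
  have hL : Adm S x (S x) := ⟨hx, le_rfl, hV⟩
  have key : ∀ β : List Bool, β.length = b x → ∃ T : ℕ, T ≤ S x ^ D ∧
      HaltsOn (compC (K + 1) 0 c) x β T (zout (out x (cval 0 β))) := by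
    intro β hβ
    have hS1 : S x ≤ S x ^ E := Nat.le_self_pow hE.ne' (S x)
    have hS : S x ≤ 2 ^ S x ^ E := hS1.trans Nat.lt_two_pow_self.le
    obtain ⟨T', σ', h1, h2, h3⟩ := Run.halts (K := K + 1) (by omega) Nat.one_le_two_pow
      (hc x (S x) hL β hβ) (vars_mono (by omega) c hK) (hV.1.trans hS) (fun a ha => by
        obtain ⟨g1, g2⟩ := hV.2 a ha
        have g3 : (a.natAbs : ℤ) < (2 : ℤ) ^ S x := by
          rw [Int.natAbs_of_nonneg g1]
          exact g2
        have g4 : a.natAbs < 2 ^ S x := by exact_mod_cast g3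
        exact g4.le.trans (Nat.pow_le_pow_right (by omega) hS1))
    refine ⟨T', ?_, h3 ▸ h2⟩
    refine h1.trans (le_trans (le_of_eq ?_) (hD (S x) hx))
    rw [Nat.size_pow]
    ring
  constructor
  · intro good _
    classical
    choose! T hT hH using key
    have h1 : ∀ z : ℤ, outProb (compC (K + 1) 0 c) x z = ∑' β : List.Vector Bool (b x),
        if zout (out x (cval 0 β.toList)) = z then (1 / 2 : ℝ≥0∞) ^ β.toList.length else 0 := by
      intro z
      have h2 := outProb_eq (P := compC (K + 1) 0 c) (x := x)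
        (F := fun β : List.Vector Bool (b x) => β.toList) (T := fun β => T β.toList)
        (y := fun β => zout (out x (cval 0 β.toList))) List.Vector.toList_injective
        (fun β => hH β.toList β.toList_length) (tsum_vector (b x)) z
      rw [h2]
    unfold probThat
    have h2 : ∀ z : {z : ℤ // good z}, outProb (compC (K + 1) 0 c) x z = ∑' β : List.Vector Bool (b x),
        if zout (out x (cval 0 β.toList)) = z then (1 / 2 : ℝ≥0∞) ^ b x else 0 := by
      intro z
      rw [h1]
      refine tsum_congr fun β => ?_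
      rw [β.toList_length]
    rw [tsum_congr h2, ENNReal.tsum_comm]
    have h3 : ∀ β : List.Vector Bool (b x), (∑' z : {z : ℤ // good z},
        if zout (out x (cval 0 β.toList)) = (z : ℤ) then (1 / 2 : ℝ≥0∞) ^ b x else 0) =
        if good (zout (out x (cval 0 β.toList))) then (1 / 2 : ℝ≥0∞) ^ b x else 0 := by
      intro β
      by_cases hg : good (zout (out x (cval 0 β.toList)))
      · rw [if_pos hg, tsum_eq_single (⟨_, hg⟩ : {z : ℤ // good z}), if_pos rfl]
        intro z hz
        rw [if_neg]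
        intro h4
        exact hz (Subtype.ext h4.symm)
      · rw [if_neg hg]
        refine ENNReal.tsum_eq_zero.2 fun z => if_neg fun h4 => hg ?_
        rw [h4]
        exact z.2
    rw [tsum_congr h3, tsum_fintype, ← Finset.sum_filter, Finset.sum_const, nsmul_eq_mul]
    have h4 := card_cval (b x) (fun om => good (zout (out x om)))
    have h5 : (Finset.univ.filter fun β : List.Vector Bool (b x) =>
        good (zout (out x (cval 0 β.toList)))).card =
        ((Finset.range (2 ^ b x)).filter fun om => good (zout (out x om))).card := by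
      rw [← h4]
    rw [h5, one_div, ← ENNReal.inv_pow, div_eq_mul_inv]
  · intro c'
    obtain ⟨T, h1, h2⟩ := key ((List.range (b x)).map c') (by simp)
    exact ⟨b x, T, _, h2, by exact_mod_cast h1⟩

end Pool.Agent.Lib.PTC
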