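import Mathlib
import Pool.Agent.Lib.PRam.Defs

/-! Worst case cost and probability of an event for the probabilistic random-access machine. -/

set_option autoImplicit false

open scoped ENNReal

namespace Pool.Agent.Lib.PTC

open Pool.Agent.Lib.PRam

/-- For every outcome of the coin flips `P` halts on the input `x`, with total cost at most `b`. -/
def TimeLe (P : List Instr) (x : List ℤ) (b : ℝ) : Prop :=
  ∀ c : ℕ → Bool, ∃ (k T : ℕ) (z : ℤ), HaltsOn P x ((List.range k).map c) T z ∧ (T : ℝ) ≤ b

/-- The probability that `P` on the input `x` halts with an output `z` satisfying `good z`. -/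
noncomputable def probThat (P : List Instr) (x : List ℤ) (good : ℤ → Prop) : ℝ≥0∞ :=
  ∑' z : {z : ℤ // good z}, outProb P x z

/-- `itr f s t` is the value of `v` after `v := s; for i < t: v := f i v`. -/
def itr {τ : Type} (f : ℕ → τ → τ) (s : τ) : ℕ → τ
  | 0 => s
  | t + 1 => f t (itr f s t)

/-- the entry of the input at a position (negative numbers read as `0`) -/
def inp (x : List ℤ) (i : ℕ) : ℕ := (x.getD i 0).toNat

end Pool.Agent.Lib.PTC
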