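import Pool.Agent.Lib.PTC.Size

/-! Bounds, properties, bounded search, powers, digits. -/

set_option autoImplicit false
set_option linter.unusedVariables false

namespace Pool.Agent.Lib.PTC

open PRam

variable {S : List ℤ → ℕ} {σ τ ρ : Type} [Tup σ] [Tup τ] [Tup ρ]

/-! ### Bounds -/

protected theorem Comp.bd {F : List ℤ → σ → ℕ} (h : Comp S F) : Bd S F := by
  obtain ⟨e, _, he⟩ := h.bound
  exact ⟨e, fun x L w hL hw => lt_nat.1 (he x L w hL hw)⟩

protected theorem Bd.mono {F G : List ℤ → σ → ℕ} (h : Bd S F) (hG : ∀ x w, G x w ≤ F x w) : Bd S G := by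
  obtain ⟨e, he⟩ := h
  exact ⟨e, fun x L w hL hw => (hG x w).trans_lt (he x L w hL hw)⟩

protected theorem Bd.const (m : ℕ) : Bd S fun _ (_ : σ) => m := (Comp.const m).bd

protected theorem Tm.bd {F : List ℤ → σ → ℕ} (h : Tm S F) : Bd S F := by
  obtain ⟨e, he⟩ := h
  exact ⟨e, fun x L w hL hw => (he x L w hL hw).trans_lt Nat.lt_two_pow_self⟩

protected theorem Bd.add {F G : List ℤ → σ → ℕ} (hF : Bd S F) (hG : Bd S G) :
    Bd S fun x w => F x w + G x w := by
  obtain ⟨e₁, h₁⟩ := hF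
  obtain ⟨e₂, h₂⟩ := hG
  refine ⟨e₁ + e₂ + 2, fun x L w hL hw => ?_⟩
  have a₁ := (h₁ x L w hL hw).trans_le (ppw hL.two (show e₁ ≤ e₁ + e₂ + 1 by omega))
  have a₂ := (h₂ x L w hL hw).trans_le (ppw hL.two (show e₂ ≤ e₁ + e₂ + 1 by omega))
  have h2 : 2 ≤ L ^ (e₁ + e₂ + 1) := hL.two.trans (Nat.le_self_pow (by omega) L)
  have h3 := add_lt' h2 a₁ a₂
  refine h3.trans_le (Nat.pow_le_pow_right (by omega) ?_)
  rw [pow_succ L (e₁ + e₂ + 1)]
  have := Nat.mul_le_mul_left (L ^ (e₁ + e₂ + 1)) hL.two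
  omega

protected theorem Bd.mul {F G : List ℤ → σ → ℕ} (hF : Bd S F) (hG : Bd S G) :
    Bd S fun x w => F x w * G x w := by
  obtain ⟨e₁, h₁⟩ := hF
  obtain ⟨e₂, h₂⟩ := hG
  refine ⟨e₁ + e₂ + 2, fun x L w hL hw => ?_⟩
  have a₁ := (h₁ x L w hL hw).trans_le (ppw hL.two (show e₁ ≤ e₁ + e₂ + 1 by omega))
  have a₂ := (h₂ x L w hL hw).trans_le (ppw hL.two (show e₂ ≤ e₁ + e₂ + 1 by omega))
  refine (mul_lt' a₁ a₂).trans_le (Nat.pow_le_pow_right (by omega) ?_)
  rw [pow_succ L (e₁ + e₂ + 1)]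
  have := Nat.mul_le_mul_left (L ^ (e₁ + e₂ + 1)) hL.two
  omega

/-- Powers with polynomially bounded exponents. -/
protected theorem Bd.pow {F G : List ℤ → σ → ℕ} (hF : Bd S F) (hG : Tm S G) :
    Bd S fun x w => F x w ^ G x w := by
  obtain ⟨e₁, h₁⟩ := hF
  obtain ⟨e₂, h₂⟩ := hG
  refine ⟨e₁ + e₂ + 1, fun x L w hL hw => ?_⟩
  have h3 : F x w ^ G x w ≤ 2 ^ (L ^ e₁ * L ^ e₂) := by
    rw [pow_mul]
    calc F x w ^ G x w ≤ (2 ^ L ^ e₁) ^ G x w := Nat.pow_le_pow_left (h₁ x L w hL hw).le _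
      _ ≤ (2 ^ L ^ e₁) ^ L ^ e₂ := Nat.pow_le_pow_right (by positivity) (h₂ x L w hL hw)
  refine h3.trans_lt (Nat.pow_lt_pow_right (by omega) ?_)
  rw [← pow_add]
  exact Nat.pow_lt_pow_right (by have := hL.two; omega) (by omega)

protected theorem Bd.comp {F : List ℤ → τ → ℕ} {g : List ℤ → σ → τ} (hF : Bd S F) (hg : Comp S g) :
    Bd S fun x w => F x (g x w) := by
  obtain ⟨e₁, h₁⟩ := hF
  obtain ⟨e₂, h0, h₂⟩ := hg.bound
  refine ⟨e₂ * e₁, fun x L w hL hw => ?_⟩
  rw [pow_mul]
  exact h₁ x (L ^ e₂) (g x w) (hL.pow h0) (h₂ x L w hL hw)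

protected theorem Tm.comp {F : List ℤ → τ → ℕ} {g : List ℤ → σ → τ} (hF : Tm S F) (hg : Comp S g) :
    Tm S fun x w => F x (g x w) := by
  obtain ⟨e₁, h₁⟩ := hF
  obtain ⟨e₂, h0, h₂⟩ := hg.bound
  refine ⟨e₂ * e₁, fun x L w hL hw => ?_⟩
  rw [pow_mul]
  exact h₁ x (L ^ e₂) (g x w) (hL.pow h0) (h₂ x L w hL hw)

protected theorem Tm.mono {F G : List ℤ → σ → ℕ} (h : Tm S F) (hG : ∀ x w, G x w ≤ F x w) : Tm S G := by
  obtain ⟨e, he⟩ := h
  exact ⟨e, fun x L w hL hw => (hG x w).trans (he x L w hL hw)⟩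

protected theorem Tm.const (m : ℕ) : Tm S fun _ (_ : σ) => m :=
  ⟨m, fun _ L _ hL _ => le_pow_self' hL.two m⟩

/-- The size parameter. -/
protected theorem Tm.scale : Tm S fun x (_ : σ) => S x :=
  ⟨1, fun _ L _ hL _ => by rw [pow_one]; exact hL.size⟩

protected theorem Tm.length : Tm S fun x (_ : σ) => x.length :=
  ⟨1, fun _ L _ hL _ => by rw [pow_one]; exact hL.valid.1⟩

protected theorem Tm.add {F G : List ℤ → σ → ℕ} (hF : Tm S F) (hG : Tm S G) :
    Tm S fun x w => F x w + G x w := by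
  obtain ⟨e₁, h₁⟩ := hF
  obtain ⟨e₂, h₂⟩ := hG
  refine ⟨e₁ + e₂ + 1, fun x L w hL hw => ?_⟩
  have a₁ := (h₁ x L w hL hw).trans (pw hL.two (show e₁ ≤ e₁ + e₂ by omega))
  have a₂ := (h₂ x L w hL hw).trans (pw hL.two (show e₂ ≤ e₁ + e₂ by omega))
  rw [pow_succ]
  have := Nat.mul_le_mul_left (L ^ (e₁ + e₂)) hL.two
  change F x w + G x w ≤ _
  omega

protected theorem Tm.mul {F G : List ℤ → σ → ℕ} (hF : Tm S F) (hG : Tm S G) :
    Tm S fun x w => F x w * G x w := by
  obtain ⟨e₁, h₁⟩ := hF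
  obtain ⟨e₂, h₂⟩ := hG
  refine ⟨e₁ + e₂, fun x L w hL hw => ?_⟩
  rw [pow_add]
  exact Nat.mul_le_mul (h₁ x L w hL hw) (h₂ x L w hL hw)

protected theorem Tm.pow {F : List ℤ → σ → ℕ} (hF : Tm S F) (m : ℕ) : Tm S fun x w => F x w ^ m := by
  obtain ⟨e, h⟩ := hF
  refine ⟨e * m, fun x L w hL hw => ?_⟩
  rw [pow_mul]
  exact Nat.pow_le_pow_left (h x L w hL hw) m

/-- The number of digits of a value is polynomially bounded. -/
protected theorem Tm.size {F : List ℤ → σ → ℕ} (hF : Bd S F) : Tm S fun x w => Nat.size (F x w) := by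
  obtain ⟨e, h⟩ := hF
  exact ⟨e, fun x L w hL hw => Nat.size_le.2 (h x L w hL hw)⟩

protected theorem Tm.min_left {F G : List ℤ → σ → ℕ} (hF : Tm S F) : Tm S fun x w => min (F x w) (G x w) :=
  hF.mono fun _ _ => min_le_left _ _

protected theorem Tm.min_right {F G : List ℤ → σ → ℕ} (hG : Tm S G) : Tm S fun x w => min (F x w) (G x w) :=
  hG.mono fun _ _ => min_le_right _ _

/-- The maximum of boundedly many values. -/
protected theorem Bd.sup {F : List ℤ → σ → ℕ → ℕ} {T : List ℤ → σ → ℕ}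
    (hF : Bd S fun x (p : σ × ℕ) => F x p.1 p.2) (hT : Bd S T) :
    Bd S fun x w => (Finset.range (T x w + 1)).sup (F x w) := by
  obtain ⟨e₁, h₁⟩ := hF
  obtain ⟨e₂, h₂⟩ := hT
  refine ⟨(e₂ + 1) * e₁, fun x L w hL hw => ?_⟩
  have hLL : L ≤ L ^ (e₂ + 1) := Nat.le_self_pow (by omega) L
  rw [pow_mul]
  refine (Finset.sup_lt_iff (by positivity)).2 fun i hi => ?_
  have hi' := Finset.mem_range.1 hi
  have h3 := h₂ x L w hL hw
  have h4 := ppw hL.two (show e₂ ≤ e₂ + 1 by omega)
  exact h₁ x (L ^ (e₂ + 1)) (w, i) (hL.pow (by omega))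
    (lt_prod.2 ⟨hw.mono (Nat.pow_le_pow_right (by omega) hLL), lt_nat.2 (by omega)⟩)

protected theorem Tm.sup {F : List ℤ → σ → ℕ → ℕ} {T : List ℤ → σ → ℕ}
    (hF : Tm S fun x (p : σ × ℕ) => F x p.1 p.2) (hT : Bd S T) :
    Tm S fun x w => (Finset.range (T x w + 1)).sup (F x w) := by
  obtain ⟨e₁, h₁⟩ := hF
  obtain ⟨e₂, h₂⟩ := hT
  refine ⟨(e₂ + 1) * e₁, fun x L w hL hw => ?_⟩
  have hLL : L ≤ L ^ (e₂ + 1) := Nat.le_self_pow (by omega) L
  rw [pow_mul]
  refine Finset.sup_le fun i hi => ?_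
  have hi' := Finset.mem_range.1 hi
  have h3 := h₂ x L w hL hw
  have h4 := ppw hL.two (show e₂ ≤ e₂ + 1 by omega)
  exact h₁ x (L ^ (e₂ + 1)) (w, i) (hL.pow (by omega))
    (lt_prod.2 ⟨hw.mono (Nat.pow_le_pow_right (by omega) hLL), lt_nat.2 (by omega)⟩)

theorem le_sup_range {F : ℕ → ℕ} {T i : ℕ} (h : i ≤ T) :
    F i ≤ (Finset.range (T + 1)).sup F :=
  Finset.le_sup (f := F) (Finset.mem_range.2 (by omega))

/-- Bounded recursion with a given bound. -/
protected theorem Comp.itr_le {h : List ℤ → σ → ℕ → τ → τ} {g : List ℤ → σ → τ} {T F : List ℤ → σ → ℕ}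
    (hh : Comp S fun x (p : σ × ℕ × τ) => h x p.1 p.2.1 p.2.2) (hg : Comp S g) (hT : Comp S T)
    (hTm : Tm S T) (hF : Bd S F) (hb : ∀ x w, ∀ i ≤ T x w, Lt (itr (h x w) (g x w) i) (F x w + 1)) :
    Comp S fun x w => itr (h x w) (g x w) (T x w) := by
  obtain ⟨e, he⟩ := hF
  exact Comp.itr hh hg hT hTm ⟨e, fun x L w hL hw i hi => (hb x w i hi).mono (he x L w hL hw)⟩

protected theorem Comp.itr_nat {h : List ℤ → σ → ℕ → ℕ → ℕ} {g : List ℤ → σ → ℕ} {T F : List ℤ → σ → ℕ}
    (hh : Comp S fun x (p : σ × ℕ × ℕ) => h x p.1 p.2.1 p.2.2) (hg : Comp S g) (hT : Comp S T)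
    (hTm : Tm S T) (hF : Bd S F) (hb : ∀ x w, ∀ i ≤ T x w, itr (h x w) (g x w) i ≤ F x w) :
    Comp S fun x w => itr (h x w) (g x w) (T x w) :=
  Comp.itr_le hh hg hT hTm hF fun x w i hi => lt_nat.2 (Nat.lt_succ_of_le (hb x w i hi))

omit [Tup τ] in
/-- Invariants of the iteration. -/
theorem itr_inv {P : ℕ → τ → Prop} {f : ℕ → τ → τ} {s : τ} {t : ℕ} (h0 : P 0 s)
    (hs : ∀ i < t, ∀ v, P i v → P (i + 1) (f i v)) : ∀ i ≤ t, P i (itr f s i) := by
  intro i
  induction i with
  | zero => intro _; exact h0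
  | succ i ih => intro hi; exact hs i (by omega) _ (ih (by omega))

omit [Tup τ] in
theorem itr_congr {f f' : ℕ → τ → τ} {s : τ} {t : ℕ} (P : ℕ → τ → Prop) (h0 : P 0 s)
    (hs : ∀ i < t, ∀ v, P i v → P (i + 1) (f i v) ∧ f i v = f' i v) : itr f s t = itr f' s t := by
  have key : ∀ i ≤ t, P i (itr f s i) ∧ itr f s i = itr f' s i := by
    intro i
    induction i with
    | zero => intro _; exact ⟨h0, rfl⟩
    | succ i ih =>
      intro hi
      obtain ⟨h1, h2⟩ := ih (by omega)
      obtain ⟨h3, h4⟩ := hs i (by omega) _ h1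
      refine ⟨h3, ?_⟩
      change f i (itr f s i) = f' i (itr f' s i)
      rw [h4, h2]
  exact (key t le_rfl).2

/-! ### Properties -/

protected theorem CompP.of {c : List ℤ → σ → ℕ} (hc : Comp S c) : CompP S fun x w => c x w ≠ 0 :=
  ⟨c, hc, fun _ _ => Iff.rfl⟩

protected theorem CompP.congr {P Q : List ℤ → σ → Prop} (hP : CompP S P) (h : ∀ x w, P x w ↔ Q x w) :
    CompP S Q := by
  obtain ⟨c, hc, h'⟩ := hP
  exact ⟨c, hc, fun x w => (h' x w).trans (h x w)⟩

protected theorem CompP.comp {P : List ℤ → τ → Prop} {f : List ℤ → σ → τ} (hP : CompP S P)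
    (hf : Comp S f) : CompP S fun x w => P x (f x w) := by
  obtain ⟨c, hc, h⟩ := hP
  exact ⟨_, hc.comp hf, fun x w => h x (f x w)⟩

protected theorem CompP.const (p : Prop) : CompP S fun _ (_ : σ) => p := by
  by_cases h : p
  · exact (CompP.of (Comp.const 1)).congr fun _ _ => by simp [h]
  · exact (CompP.of (Comp.const 0)).congr fun _ _ => by simp [h]

protected theorem CompP.not {P : List ℤ → σ → Prop} (hP : CompP S P) : CompP S fun x w => ¬ P x w := by
  obtain ⟨c, hc, h⟩ := hP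
  refine (CompP.of (Comp.ite0 hc (Comp.const 1) (Comp.const 0))).congr fun x w => ?_
  rw [← h]
  by_cases h0 : c x w = 0 <;> simp [h0]

protected theorem CompP.and {P Q : List ℤ → σ → Prop} (hP : CompP S P) (hQ : CompP S Q) :
    CompP S fun x w => P x w ∧ Q x w := by
  obtain ⟨c, hc, h⟩ := hP
  obtain ⟨d, hd, h'⟩ := hQ
  refine (CompP.of (hc.mul hd)).congr fun x w => ?_
  rw [← h, ← h', mul_ne_zero_iff]

protected theorem CompP.or {P Q : List ℤ → σ → Prop} (hP : CompP S P) (hQ : CompP S Q) :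
    CompP S fun x w => P x w ∨ Q x w :=
  (hP.not.and hQ.not).not.congr fun _ _ => by tauto

protected theorem CompP.imp {P Q : List ℤ → σ → Prop} (hP : CompP S P) (hQ : CompP S Q) :
    CompP S fun x w => P x w → Q x w :=
  (hP.and hQ.not).not.congr fun _ _ => by tauto

protected theorem CompP.iff {P Q : List ℤ → σ → Prop} (hP : CompP S P) (hQ : CompP S Q) :
    CompP S fun x w => (P x w ↔ Q x w) :=
  ((hP.imp hQ).and (hQ.imp hP)).congr fun _ _ => by tauto

protected theorem CompP.lt {f g : List ℤ → σ → ℕ} (hf : Comp S f) (hg : Comp S g) :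
    CompP S fun x w => f x w < g x w :=
  (CompP.of (hg.sub hf)).congr fun _ _ => by omega

protected theorem CompP.le {f g : List ℤ → σ → ℕ} (hf : Comp S f) (hg : Comp S g) :
    CompP S fun x w => f x w ≤ g x w :=
  (CompP.lt hg hf).not.congr fun _ _ => by omega

protected theorem CompP.eq {f g : List ℤ → σ → ℕ} (hf : Comp S f) (hg : Comp S g) :
    CompP S fun x w => f x w = g x w :=
  ((CompP.le hf hg).and (CompP.le hg hf)).congr fun _ _ => by omega

protected theorem CompP.ne {f g : List ℤ → σ → ℕ} (hf : Comp S f) (hg : Comp S g) :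
    CompP S fun x w => f x w ≠ g x w :=
  (CompP.eq hf hg).not

/-- The indicator of a property. -/
protected theorem Comp.ind {P : List ℤ → σ → Prop} [∀ x w, Decidable (P x w)] (hP : CompP S P) :
    Comp S fun x w => if P x w then 1 else 0 :=
  Comp.ite hP (Comp.const 1) (Comp.const 0)

/-- Case distinction: it suffices that the first branch is computed correctly if the property holds,
and the second one if it does not hold. -/
protected theorem Comp.ite_of {P : List ℤ → σ → Prop} [∀ x w, Decidable (P x w)]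
    {f g f' g' : List ℤ → σ → τ} (hP : CompP S P) (hf : Comp S f') (hg : Comp S g')
    (h : ∀ x w, P x w → f x w = f' x w) (h' : ∀ x w, ¬ P x w → g x w = g' x w) :
    Comp S fun x w => if P x w then f x w else g x w :=
  (Comp.ite hP hf hg).of_eq fun x w => by
    by_cases hp : P x w
    · rw [if_pos hp, if_pos hp, h x w hp]
    · rw [if_neg hp, if_neg hp, h' x w hp]

/-- Bounded quantifiers. -/
protected theorem CompP.forall_lt {P : List ℤ → σ → ℕ → Prop} {T : List ℤ → σ → ℕ}
    (hP : CompP S fun x (p : σ × ℕ) => P x p.1 p.2) (hT : Comp S T) (hTm : Tm S T) :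
    CompP S fun x w => ∀ i < T x w, P x w i := by
  classical
  have hP' : CompP S fun x (p : σ × ℕ × ℕ) => P x p.1 p.2.1 :=
    hP.comp (Comp.pair Comp.id.fst Comp.id.snd.fst)
  have hle : ∀ x w i, itr (fun i b => if P x w i then b else 0) 1 i ≤ 1 := by
    intro x w i
    induction i with
    | zero => exact le_rfl
    | succ i ih =>
      rw [itr]
      split_ifs
      · exact ih
      · omega
  refine (CompP.of (Comp.itr_nat (h := fun x w i b => if P x w i then b else 0)
    (Comp.ite hP' Comp.id.snd.snd (Comp.const 0)) (Comp.const 1) hT hTm (Bd.const 1)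
    fun x w i _ => hle x w i)).congr fun x w => ?_
  generalize T x w = t
  induction t with
  | zero => simp [itr]
  | succ t ih =>
    rw [itr]
    constructor
    · intro h i hi
      by_cases h0 : P x w t
      · rw [if_pos h0] at h
        rcases Nat.lt_succ_iff_lt_or_eq.1 hi with h1 | h1
        · exact ih.1 h i h1
        · exact h1 ▸ h0
      · rw [if_neg h0] at h
        exact absurd rfl h
    · intro h
      rw [if_pos (h t (by omega))]
      exact ih.2 fun i hi => h i (by omega)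

protected theorem CompP.exists_lt {P : List ℤ → σ → ℕ → Prop} {T : List ℤ → σ → ℕ}
    (hP : CompP S fun x (p : σ × ℕ) => P x p.1 p.2) (hT : Comp S T) (hTm : Tm S T) :
    CompP S fun x w => ∃ i < T x w, P x w i :=
  (CompP.forall_lt (P := fun x w i => ¬ P x w i) hP.not hT hTm).not.congr fun x w => by
    simp only [not_forall, not_not, exists_prop]

/-! ### More arithmetic -/

protected theorem Comp.min {f g : List ℤ → σ → ℕ} (hf : Comp S f) (hg : Comp S g) :
    Comp S fun x w => min (f x w) (g x w) :=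
  (Comp.ite (CompP.le hf hg) hf hg).of_eq fun x w => by
    by_cases h : f x w ≤ g x w
    · rw [if_pos h, min_eq_left h]
    · rw [if_neg h, min_eq_right (by omega)]

protected theorem Comp.max {f g : List ℤ → σ → ℕ} (hf : Comp S f) (hg : Comp S g) :
    Comp S fun x w => max (f x w) (g x w) :=
  (Comp.ite (CompP.le hf hg) hg hf).of_eq fun x w => by
    by_cases h : f x w ≤ g x w
    · rw [if_pos h, max_eq_right h]
    · rw [if_neg h, max_eq_left (by omega)]

/-- Powers. -/
protected theorem Comp.pow {f g : List ℤ → σ → ℕ} (hf : Comp S f) (hg : Comp S g) (ht : Tm S g) :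
    Comp S fun x w => f x w ^ g x w := by
  have key : ∀ a i : ℕ, itr (fun _ p => p * a) 1 i = a ^ i := by
    intro a i
    induction i with
    | zero => rfl
    | succ i ih => rw [itr, ih, pow_succ]
  refine (Comp.itr_nat (h := fun x w _ p => p * f x w)
    (Comp.mul Comp.id.snd.snd (hf.comp Comp.id.fst)) (Comp.const 1) hg ht
    ((hf.bd.pow ht).add (Bd.const 1)) fun x w i hi => ?_).of_eq fun x w => key _ _
  rw [key]
  rcases Nat.eq_zero_or_pos (f x w) with h | h
  · rw [h]
    have : 0 ^ i ≤ 1 := by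
      rcases Nat.eq_zero_or_pos i with h | h
      · subst h; simp
      · rw [zero_pow (by omega)]; omega
    exact this.trans (Nat.le_add_left _ _)
  · exact (Nat.pow_le_pow_right h hi).trans (by omega)

protected theorem Comp.pow2 {g : List ℤ → σ → ℕ} (hg : Comp S g) (ht : Tm S g) :
    Comp S fun x w => 2 ^ g x w := Comp.pow (Comp.const 2) hg ht

theorem min_pow_size (k a g : ℕ) : min k (a ^ min g (Nat.size k + 1)) = min k (a ^ g) := by
  rcases le_total g (Nat.size k + 1) with h | h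
  · rw [min_eq_left h]
  · rw [min_eq_right h]
    rcases Nat.lt_or_ge a 2 with ha | ha
    · interval_cases a
      · rw [zero_pow (by omega), zero_pow (by omega)]
      · rw [one_pow, one_pow]
    · have h1 : k < a ^ (Nat.size k + 1) :=
        (Nat.lt_size_self k).trans_le ((Nat.pow_le_pow_left ha _).trans
          (Nat.pow_le_pow_right (by omega) (by omega)))
      have h2 : k < a ^ g := h1.trans_le (Nat.pow_le_pow_right (by omega) h)
      rw [min_eq_left h1.le, min_eq_left h2.le]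

/-- Powers cut off at `k`. -/
protected theorem Comp.minPow {k f g : List ℤ → σ → ℕ} (hk : Comp S k) (hf : Comp S f) (hg : Comp S g) :
    Comp S fun x w => min (k x w) (f x w ^ g x w) :=
  (Comp.min hk (Comp.pow hf (Comp.min hg hk.size.succ)
    (Tm.min_right ((Tm.size hk.bd).add (Tm.const 1))))).of_eq fun _ _ => min_pow_size _ _ _

/-- Bounded sums. -/
protected theorem Comp.sum {f : List ℤ → σ → ℕ → ℕ} {T : List ℤ → σ → ℕ}
    (hf : Comp S fun x (p : σ × ℕ) => f x p.1 p.2) (hT : Comp S T) (hTm : Tm S T) :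
    Comp S fun x w => ∑ i ∈ Finset.range (T x w), f x w i := by
  have key : ∀ (f : ℕ → ℕ) i, itr (fun i p => p + f i) 0 i = ∑ j ∈ Finset.range i, f j := by
    intro f i
    induction i with
    | zero => rfl
    | succ i ih => rw [itr, ih, Finset.sum_range_succ]
  refine (Comp.itr_nat (h := fun x w i p => p + f x w i)
    (Comp.add Comp.id.snd.snd (hf.comp (Comp.pair Comp.id.fst Comp.id.snd.fst)))
    (Comp.const 0) hT hTm (hT.bd.mul (Bd.sup hf.bd hT.bd)) fun x w i hi => ?_).of_eq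
    fun x w => key _ _
  rw [key]
  calc ∑ j ∈ Finset.range i, f x w j
      ≤ ∑ j ∈ Finset.range i, (Finset.range (T x w + 1)).sup (f x w) :=
        Finset.sum_le_sum fun j hj => le_sup_range (by have := Finset.mem_range.1 hj; omega)
    _ = i * (Finset.range (T x w + 1)).sup (f x w) := by
        rw [Finset.sum_const, Finset.card_range, smul_eq_mul]
    _ ≤ _ := Nat.mul_le_mul_right _ hi

/-- Bounded products. -/
protected theorem Comp.prod {f : List ℤ → σ → ℕ → ℕ} {T : List ℤ → σ → ℕ}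
    (hf : Comp S fun x (p : σ × ℕ) => f x p.1 p.2) (hT : Comp S T) (hTm : Tm S T) :
    Comp S fun x w => ∏ i ∈ Finset.range (T x w), f x w i := by
  have key : ∀ (f : ℕ → ℕ) i, itr (fun i p => p * f i) 1 i = ∏ j ∈ Finset.range i, f j := by
    intro f i
    induction i with
    | zero => rfl
    | succ i ih => rw [itr, ih, Finset.prod_range_succ]
  refine (Comp.itr_nat (h := fun x w i p => p * f x w i)
    (Comp.mul Comp.id.snd.snd (hf.comp (Comp.pair Comp.id.fst Comp.id.snd.fst)))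
    (Comp.const 1) hT hTm (((Bd.sup hf.bd hT.bd).add (Bd.const 1)).pow hTm) fun x w i hi => ?_).of_eq
    fun x w => key _ _
  rw [key]
  calc ∏ j ∈ Finset.range i, f x w j
      ≤ ∏ j ∈ Finset.range i, ((Finset.range (T x w + 1)).sup (f x w) + 1) :=
        Finset.prod_le_prod' fun j hj =>
          (le_sup_range (by have := Finset.mem_range.1 hj; omega)).trans (Nat.le_succ _)
    _ = ((Finset.range (T x w + 1)).sup (f x w) + 1) ^ i := by
        rw [Finset.prod_const, Finset.card_range]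
    _ ≤ _ := Nat.pow_le_pow_right (by omega) hi

/-- The number of solutions. -/
protected theorem Comp.count {P : List ℤ → σ → ℕ → Prop} [∀ x w i, Decidable (P x w i)]
    {T : List ℤ → σ → ℕ} (hP : CompP S fun x (p : σ × ℕ) => P x p.1 p.2) (hT : Comp S T)
    (hTm : Tm S T) : Comp S fun x w => ((Finset.range (T x w)).filter (P x w)).card := by
  refine (Comp.sum (f := fun x w i => if P x w i then 1 else 0) (Comp.ind hP) hT hTm).of_eq
    fun x w => ?_
  rw [Finset.card_filter]

/-- Bounded search: `F` is the least `i < T` with `P i`, or `T`. -/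
protected theorem Comp.search {P : List ℤ → σ → ℕ → Prop} {T F : List ℤ → σ → ℕ}
    (hP : CompP S fun x (p : σ × ℕ) => P x p.1 p.2) (hT : Comp S T) (hTm : Tm S T)
    (h1 : ∀ x w, F x w ≤ T x w) (h2 : ∀ x w, ∀ i < F x w, ¬ P x w i)
    (h3 : ∀ x w, F x w < T x w → P x w (F x w)) : Comp S F := by
  classical
  have hP' : CompP S fun x (p : σ × ℕ × ℕ) => P x p.1 p.2.1 :=
    hP.comp (Comp.pair Comp.id.fst Comp.id.snd.fst)
  have key : ∀ x w, ∀ i ≤ T x w, itr (fun i v => if v = i then (if P x w i then v else v + 1)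
      else v) 0 i = min (F x w) i := by
    intro x w i
    induction i with
    | zero => intro _; rw [itr]; omega
    | succ i ih =>
      intro hi
      rw [itr, ih (by omega)]
      rcases lt_trichotomy (F x w) i with h | h | h
      · rw [min_eq_left (by omega), if_neg (by omega), min_eq_left (by omega)]
      · rw [min_eq_left (by omega), if_pos h, if_pos, min_eq_left (by omega)]
        rw [← h]
        exact h3 x w (by omega)
      · rw [min_eq_right (by omega), if_pos rfl, if_neg (h2 x w i h), min_eq_right (by omega)]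
  refine (Comp.itr_nat (h := fun x w i v => if v = i then (if P x w i then v else v + 1)
    else v) (Comp.ite (CompP.eq Comp.id.snd.snd Comp.id.snd.fst)
      (Comp.ite hP' Comp.id.snd.snd (Comp.succ Comp.id.snd.snd)) Comp.id.snd.snd)
    (Comp.const 0) hT hTm hT.bd fun x w i hi => ?_).of_eq fun x w => ?_
  · rw [key x w i hi]
    omega
  · rw [key x w _ le_rfl]
    exact min_eq_left (h1 x w)

open Classical in
/-- The least `i < T` with `P i`, or `T`. -/
noncomputable def least (P : ℕ → Prop) (T : ℕ) : ℕ := if h : ∃ i, i < T ∧ P i then Nat.find h else T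

theorem least_le (P : ℕ → Prop) (T : ℕ) : least P T ≤ T := by
  classical
  unfold least
  split_ifs with h
  · exact (Nat.find_spec h).1.le
  · exact le_rfl

theorem least_spec {P : ℕ → Prop} {T : ℕ} (h : least P T < T) : P (least P T) := by
  classical
  unfold least at h ⊢
  split_ifs at h ⊢ with h1
  · exact (Nat.find_spec h1).2
  · omega

theorem least_min {P : ℕ → Prop} {T i : ℕ} (h : i < least P T) : ¬ P i := by
  classical
  unfold least at h
  split_ifs at h with h1
  · intro hP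
    exact Nat.find_min h1 h ⟨h.trans (Nat.find_spec h1).1, hP⟩
  · intro hP
    exact h1 ⟨i, h, hP⟩

protected theorem Comp.least {P : List ℤ → σ → ℕ → Prop} {T : List ℤ → σ → ℕ}
    (hP : CompP S fun x (p : σ × ℕ) => P x p.1 p.2) (hT : Comp S T) (hTm : Tm S T) :
    Comp S fun x w => least (P x w) (T x w) :=
  Comp.search hP hT hTm (fun _ _ => least_le _ _) (fun _ _ _ hi => least_min hi)
    fun _ _ h => least_spec h

theorem div_pow_eq (X b i : ℕ) : X / min (X + 1) (b ^ i) = X / b ^ i := by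
  rcases le_total (b ^ i) (X + 1) with h | h
  · rw [min_eq_right h]
  · rw [min_eq_left h, Nat.div_eq_of_lt (by omega), Nat.div_eq_of_lt (by omega)]

theorem mod_pow_eq (X b i : ℕ) : X % min (X + 1) (b ^ i) = X % b ^ i := by
  rcases le_total (b ^ i) (X + 1) with h | h
  · rw [min_eq_right h]
  · rw [min_eq_left h, Nat.mod_eq_of_lt (by omega), Nat.mod_eq_of_lt (by omega)]

protected theorem Comp.divPow {f b i : List ℤ → σ → ℕ} (hf : Comp S f) (hb : Comp S b) (hi : Comp S i) :
    Comp S fun x w => f x w / b x w ^ i x w :=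
  (Comp.div hf (Comp.minPow hf.succ hb hi)).of_eq fun _ _ => div_pow_eq _ _ _

protected theorem Comp.modPow {f b i : List ℤ → σ → ℕ} (hf : Comp S f) (hb : Comp S b) (hi : Comp S i) :
    Comp S fun x w => f x w % b x w ^ i x w :=
  (Comp.mod hf (Comp.minPow hf.succ hb hi)).of_eq fun _ _ => mod_pow_eq _ _ _

/-- Digits. -/
protected theorem Comp.digit {f b i : List ℤ → σ → ℕ} (hf : Comp S f) (hb : Comp S b) (hi : Comp S i) :
    Comp S fun x w => f x w / b x w ^ i x w % b x w :=
  Comp.mod (Comp.divPow hf hb hi) hb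

/-- Comparison with a power. -/
protected theorem CompP.lt_pow {f b i : List ℤ → σ → ℕ} (hf : Comp S f) (hb : Comp S b)
    (hi : Comp S i) : CompP S fun x w => f x w < b x w ^ i x w :=
  (CompP.lt hf (Comp.minPow hf.succ hb hi)).congr fun x w => by omega

protected theorem CompP.pow_le {f b i : List ℤ → σ → ℕ} (hf : Comp S f) (hb : Comp S b)
    (hi : Comp S i) : CompP S fun x w => b x w ^ i x w ≤ f x w :=
  (CompP.lt_pow hf hb hi).not.congr fun x w => by omega

/-- Replacing a digit. -/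
def setDigit (b X i v : ℕ) : ℕ := X % b ^ i + v * b ^ i + X / b ^ (i + 1) * b ^ (i + 1)

/-- Replacing a digit, the position polynomially bounded. -/
protected theorem Comp.setDigit {b f i v : List ℤ → σ → ℕ} (hb : Comp S b)
    (hf : Comp S f) (hi : Comp S i) (ti : Tm S i) (hv : Comp S v) :
    Comp S fun x w => setDigit (b x w) (f x w) (i x w) (v x w) := by
  refine (Comp.add (Comp.add (Comp.modPow hf hb hi) (Comp.mul hv (Comp.pow hb hi ti)))
    (Comp.sub hf (Comp.modPow hf hb hi.succ))).of_eq fun x w => ?_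
  rw [setDigit]
  have h := Nat.div_add_mod (f x w) (b x w ^ (i x w + 1))
  rw [mul_comm] at h
  omega

/-- The bits. -/
protected theorem CompP.testBit {f i : List ℤ → σ → ℕ} (hf : Comp S f) (hi : Comp S i) :
    CompP S fun x w => (f x w).testBit (i x w) = true :=
  (CompP.eq (Comp.digit hf (Comp.const 2) hi) (Comp.const 1)).congr fun x w => by
    rw [Nat.testBit_eq_decide_div_mod_eq, decide_eq_true_eq]

/-- Logarithms. -/
protected theorem Comp.log2 {f : List ℤ → σ → ℕ} (hf : Comp S f) :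
    Comp S fun x w => Nat.log 2 (f x w) := by
  refine (Comp.pred hf.size).of_eq fun x w => ?_
  rcases Nat.eq_zero_or_pos (f x w) with h | h
  · rw [h]; simp
  · apply le_antisymm
    · have h1 : Nat.size (f x w) ≤ Nat.log 2 (f x w) + 1 :=
        Nat.size_le.2 (Nat.lt_pow_succ_log_self (by omega) _)
      change Nat.size (f x w) - 1 ≤ _
      omega
    · have h1 : Nat.log 2 (f x w) < Nat.size (f x w) :=
        Nat.lt_size.2 (Nat.pow_log_le_self 2 (by omega))
      change _ ≤ Nat.size (f x w) - 1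
      omega

theorem sqrt_step (s p : ℕ) : s / 2 ^ p * 2 ^ p = if s / 2 ^ (p + 1) * 2 ^ (p + 1) + 2 ^ p ≤ s then
    s / 2 ^ (p + 1) * 2 ^ (p + 1) + 2 ^ p else s / 2 ^ (p + 1) * 2 ^ (p + 1) := by
  have h1 : s / 2 ^ (p + 1) = s / 2 ^ p / 2 := by rw [pow_succ, Nat.div_div_eq_div_mul]
  have h2 := Nat.div_add_mod s (2 ^ p)
  have h3 := Nat.mod_lt s (show 0 < 2 ^ p by positivity)
  rw [h1, pow_succ]
  obtain ⟨a, ha⟩ : ∃ a, a = s / 2 ^ p := ⟨_, rfl⟩
  rw [← ha] at h2 ⊢
  rw [mul_comm] at h2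
  obtain ⟨q, hq⟩ : ∃ q, q = 2 ^ p := ⟨_, rfl⟩
  rw [← hq] at h2 h3 ⊢
  rcases Nat.even_or_odd' a with ⟨c, hc | hc⟩
  · have h4 : a / 2 = c := by omega
    have h5 : a * q = c * (q * 2) := by rw [hc]; ring
    rw [h4, if_neg (by omega), h5]
  · have h4 : a / 2 = c := by omega
    have h5 : a * q = c * (q * 2) + q := by rw [hc]; ring
    rw [h4, if_pos (by omega), h5]

/-- Square roots. -/
protected theorem Comp.sqrt {f : List ℤ → σ → ℕ} (hf : Comp S f) :
    Comp S fun x w => Nat.sqrt (f x w) := by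
  have key : ∀ f : ℕ, ∀ i ≤ Nat.size f, itr (fun i v => if (v + 2 ^ (Nat.size f - (i + 1))) ^ 2 ≤ f then
      v + 2 ^ (Nat.size f - (i + 1)) else v) 0 i =
        Nat.sqrt f / 2 ^ (Nat.size f - i) * 2 ^ (Nat.size f - i) := by
    intro f i
    induction i with
    | zero =>
      intro _
      have h1 : Nat.sqrt f < 2 ^ (Nat.size f - 0) := by
        rw [Nat.sub_zero]
        exact (Nat.sqrt_le_self f).trans_lt (Nat.lt_size_self f)
      rw [Nat.div_eq_of_lt h1, zero_mul]
      rfl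
    | succ i ih =>
      intro hi
      have h1 : Nat.size f - i = Nat.size f - (i + 1) + 1 := by omega
      rw [itr, ih (by omega), sqrt_step (Nat.sqrt f) (Nat.size f - (i + 1)), h1]
      refine if_congr ?_ rfl rfl
      rw [Nat.le_sqrt']
  have hp : Comp S fun x (p : σ × ℕ × ℕ) => 2 ^ (Nat.size (f x p.1) - (p.2.1 + 1)) :=
    Comp.pow2 (Comp.sub (Comp.size (hf.comp Comp.id.fst)) (Comp.succ Comp.id.snd.fst))
      ((Tm.size (Comp.bd (hf.comp Comp.id.fst))).mono fun _ _ => Nat.sub_le _ _)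
  have hq : Comp S fun x (p : σ × ℕ × ℕ) => p.2.2 + 2 ^ (Nat.size (f x p.1) - (p.2.1 + 1)) :=
    Comp.add Comp.id.snd.snd hp
  refine (Comp.itr_nat (F := f) (h := fun x w i v => if (v + 2 ^ (Nat.size (f x w) - (i + 1))) ^ 2 ≤ f x w
    then v + 2 ^ (Nat.size (f x w) - (i + 1)) else v) (g := fun _ _ => 0)
    (Comp.ite (CompP.le (Comp.pow hq (Comp.const 2) (Tm.const 2)) (hf.comp Comp.id.fst)) hq
      Comp.id.snd.snd) (Comp.const 0) hf.size (Tm.size hf.bd) hf.bd fun x w i hi => ?_).of_eq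
    fun x w => ?_
  · rw [key _ i hi]
    exact (Nat.div_mul_le_self _ _).trans (Nat.sqrt_le_self _)
  · rw [key _ _ le_rfl, Nat.sub_self, pow_zero, Nat.div_one, mul_one]

end Pool.Agent.Lib.PTC
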