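import Pool.Agent.Lib.PRam.Rules

/-! Polynomial time functions on the probabilistic RAM: basic notions. -/

set_option autoImplicit false

namespace Pool.Agent.Lib.PTC

open PRam

/-! ### Larger bounds -/

theorem ok_mono {W W' : ℕ} (h : W ≤ W') {σ : St} : ∀ e : Expr, e.ok W σ → e.ok W' σ
  | .lit _, h' => le_trans h' h
  | .var _, _ => trivial
  | .add a b, h' => ⟨ok_mono h a h'.1, ok_mono h b h'.2.1, h'.2.2.trans h⟩
  | .sub a b, h' => ⟨ok_mono h a h'.1, ok_mono h b h'.2.1, h'.2.2.trans h⟩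
  | .mul a b, h' => ⟨ok_mono h a h'.1, ok_mono h b h'.2.1, h'.2.2.trans h⟩
  | .div a b, h' => ⟨ok_mono h a h'.1, ok_mono h b h'.2⟩
  | .load a, h' => ok_mono h a h'

theorem exec_mono {W W' : ℕ} (hW : W ≤ W') {c : Cmd} {σ σ' : St} {β : List Bool} {t : ℕ}
    (h : Exec W c σ β t σ') : Exec W' c σ β t σ' := by
  induction h with
  | skip σ => exact .skip σ
  | assign σ d e h => exact .assign σ d e (ok_mono hW e h)
  | store σ a v ha hv => exact .store σ a v (ok_mono hW a ha) (ok_mono hW v hv)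
  | coin σ d b => exact .coin σ d b
  | seq _ _ ih₁ ih₂ => exact .seq ih₁ ih₂
  | iteT h he _ ih => exact .iteT (ok_mono hW _ h) he ih
  | iteF h he _ ih => exact .iteF (ok_mono hW _ h) he ih
  | ifposT h he _ ih => exact .ifposT (ok_mono hW _ h) he ih
  | ifposF h he _ ih => exact .ifposF (ok_mono hW _ h) he ih
  | loopF h he => exact .loopF (ok_mono hW _ h) he
  | loopT h he _ _ ih₁ ih₂ => exact .loopT (ok_mono hW _ h) he ih₁ ih₂
  | whileposF h he => exact .whileposF (ok_mono hW _ h) he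
  | whileposT h he _ _ ih₁ ih₂ => exact .whileposT (ok_mono hW _ h) he ih₁ ih₂

theorem run_mono {W W' : ℕ} {c : Cmd} {σ : St} {β : List Bool} {T T' : ℕ} {Q Q' : St → Prop}
    (h : Run W c σ β T Q) (hW : W ≤ W') (hT : T ≤ T') (hQ : ∀ σ', Q σ' → Q' σ') :
    Run W' c σ β T' Q' := by
  obtain ⟨t, σ', ht, h, q⟩ := h
  exact ⟨t, σ', ht.trans hT, exec_mono hW h, hQ _ q⟩

/-! ### Registers of a program -/

theorem evars_mono {K K' : ℕ} (h : K ≤ K') : ∀ e : Expr, e.vars K → e.vars K'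
  | .lit _, _ => trivial
  | .var _, h' => lt_of_lt_of_le h' h
  | .add a b, h' => ⟨evars_mono h a h'.1, evars_mono h b h'.2⟩
  | .sub a b, h' => ⟨evars_mono h a h'.1, evars_mono h b h'.2⟩
  | .mul a b, h' => ⟨evars_mono h a h'.1, evars_mono h b h'.2⟩
  | .div a b, h' => ⟨evars_mono h a h'.1, evars_mono h b h'.2⟩
  | .load a, h' => evars_mono h a h'

theorem vars_mono {K K' : ℕ} (h : K ≤ K') : ∀ c : Cmd, c.vars K → c.vars K'
  | .skip, _ => trivial
  | .assign _ e, h' => ⟨lt_of_lt_of_le h'.1 h, evars_mono h e h'.2⟩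
  | .store a v, h' => ⟨evars_mono h a h'.1, evars_mono h v h'.2⟩
  | .coin _, h' => lt_of_lt_of_le h' h
  | .seq p q, h' => ⟨vars_mono h p h'.1, vars_mono h q h'.2⟩
  | .ite e p q, h' => ⟨evars_mono h e h'.1, vars_mono h p h'.2.1, vars_mono h q h'.2.2⟩
  | .ifpos e p q, h' => ⟨evars_mono h e h'.1, vars_mono h p h'.2.1, vars_mono h q h'.2.2⟩
  | .loop e p, h' => ⟨evars_mono h e h'.1, vars_mono h p h'.2⟩
  | .whilepos e p, h' => ⟨evars_mono h e h'.1, vars_mono h p h'.2⟩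

theorem exists_evars : ∀ e : Expr, ∃ K, e.vars K
  | .lit _ => ⟨0, trivial⟩
  | .var r => ⟨r + 1, Nat.lt_succ_self r⟩
  | .add a b => by
    obtain ⟨K, hK⟩ := exists_evars a
    obtain ⟨K', hK'⟩ := exists_evars b
    exact ⟨K + K', evars_mono (by omega) a hK, evars_mono (by omega) b hK'⟩
  | .sub a b => by
    obtain ⟨K, hK⟩ := exists_evars a
    obtain ⟨K', hK'⟩ := exists_evars b
    exact ⟨K + K', evars_mono (by omega) a hK, evars_mono (by omega) b hK'⟩
  | .mul a b => by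
    obtain ⟨K, hK⟩ := exists_evars a
    obtain ⟨K', hK'⟩ := exists_evars b
    exact ⟨K + K', evars_mono (by omega) a hK, evars_mono (by omega) b hK'⟩
  | .div a b => by
    obtain ⟨K, hK⟩ := exists_evars a
    obtain ⟨K', hK'⟩ := exists_evars b
    exact ⟨K + K', evars_mono (by omega) a hK, evars_mono (by omega) b hK'⟩
  | .load a => exists_evars a

theorem exists_vars : ∀ c : Cmd, ∃ K, c.vars K
  | .skip => ⟨0, trivial⟩
  | .assign d e => by
    obtain ⟨K, hK⟩ := exists_evars e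
    exact ⟨K + (d + 1), by show d < _; omega, evars_mono (by omega) e hK⟩
  | .store a v => by
    obtain ⟨K, hK⟩ := exists_evars a
    obtain ⟨K', hK'⟩ := exists_evars v
    exact ⟨K + K', evars_mono (by omega) a hK, evars_mono (by omega) v hK'⟩
  | .coin d => ⟨d + 1, Nat.lt_succ_self d⟩
  | .seq p q => by
    obtain ⟨K, hK⟩ := exists_vars p
    obtain ⟨K', hK'⟩ := exists_vars q
    exact ⟨K + K', vars_mono (by omega) p hK, vars_mono (by omega) q hK'⟩
  | .ite e p q => by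
    obtain ⟨K'', hK''⟩ := exists_evars e
    obtain ⟨K, hK⟩ := exists_vars p
    obtain ⟨K', hK'⟩ := exists_vars q
    exact ⟨K + K' + K'', evars_mono (by omega) e hK'', vars_mono (by omega) p hK,
      vars_mono (by omega) q hK'⟩
  | .ifpos e p q => by
    obtain ⟨K'', hK''⟩ := exists_evars e
    obtain ⟨K, hK⟩ := exists_vars p
    obtain ⟨K', hK'⟩ := exists_vars q
    exact ⟨K + K' + K'', evars_mono (by omega) e hK'', vars_mono (by omega) p hK,
      vars_mono (by omega) q hK'⟩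
  | .loop e p => by
    obtain ⟨K'', hK''⟩ := exists_evars e
    obtain ⟨K, hK⟩ := exists_vars p
    exact ⟨K + K'', evars_mono (by omega) e hK'', vars_mono (by omega) p hK⟩
  | .whilepos e p => by
    obtain ⟨K'', hK''⟩ := exists_evars e
    obtain ⟨K, hK⟩ := exists_vars p
    exact ⟨K + K'', evars_mono (by omega) e hK'', vars_mono (by omega) p hK⟩

/-! ### Admissible inputs -/

/-- `x` has at most `L` entries, all in `[0, 2 ^ L)`. -/
def Valid (x : List ℤ) (L : ℕ) : Prop := x.length ≤ L ∧ ∀ a ∈ x, 0 ≤ a ∧ a < 2 ^ L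

/-- `L` is an admissible scale for the input `x`; `S` is the size parameter. -/
structure Adm (S : List ℤ → ℕ) (x : List ℤ) (L : ℕ) : Prop where
  two : 2 ≤ L
  size : S x ≤ L
  valid : Valid x L

theorem Valid.mono {x : List ℤ} {L L' : ℕ} (h : Valid x L) (hL : L ≤ L') : Valid x L' :=
  ⟨h.1.trans hL, fun a ha => ⟨(h.2 a ha).1, (h.2 a ha).2.trans_le (by gcongr; norm_num)⟩⟩

theorem Adm.mono {S : List ℤ → ℕ} {x : List ℤ} {L L' : ℕ} (h : Adm S x L) (hL : L ≤ L') :
    Adm S x L' := ⟨h.two.trans hL, h.size.trans hL, h.valid.mono hL⟩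

theorem Adm.pow {S : List ℤ → ℕ} {x : List ℤ} {L : ℕ} (h : Adm S x L) {e : ℕ} (he : 0 < e) :
    Adm S x (L ^ e) := h.mono (Nat.le_self_pow he.ne' L)

theorem Valid.getD {x : List ℤ} {L : ℕ} (h : Valid x L) (i : ℕ) :
    0 ≤ x.getD i 0 ∧ x.getD i 0 < 2 ^ L := by
  rw [List.getD_eq_getElem?_getD]
  rcases hget : x[i]? with _ | a
  · simp
  · simpa using h.2 a (List.mem_of_getElem? hget)

/-- The input is in the memory, its length in the register `0`. -/
def Env (x : List ℤ) (σ : St) : Prop := σ.reg 0 = x.length ∧ ∀ i, σ.mem i = x.getD i 0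

/-- `σ'` arises from `σ` by writing `y` into the register `r`; the registers from `N` on may have changed. -/
def Put (N r y : ℕ) (σ σ' : St) : Prop :=
  σ'.mem = σ.mem ∧ σ'.reg r = y ∧ ∀ u < N, u ≠ r → σ'.reg u = σ.reg u

theorem Env.put {x : List ℤ} {N r y : ℕ} {σ σ' : St} (h : Env x σ) (hr : 0 < r) (hN : r < N)
    (h' : Put N r y σ σ') : Env x σ' :=
  ⟨(h'.2.2 0 (by omega) (by omega)).trans h.1, fun i => by rw [h'.1]; exact h.2 i⟩

/-! ### Powers -/

theorem le_pow_self' {L : ℕ} (hL : 2 ≤ L) (a : ℕ) : a ≤ L ^ a :=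
  (Nat.lt_two_pow_self).le.trans (Nat.pow_le_pow_left hL a)

theorem pw {L i j : ℕ} (hL : 2 ≤ L) (h : i ≤ j) : L ^ i ≤ L ^ j :=
  Nat.pow_le_pow_right (by omega) h

theorem ppw {L i j : ℕ} (hL : 2 ≤ L) (h : i ≤ j) : 2 ^ L ^ i ≤ 2 ^ L ^ j :=
  Nat.pow_le_pow_right (by omega) (pw hL h)

/-- `f` is polynomially bounded. -/
def PB (f : ℕ → ℕ) : Prop := ∃ e : ℕ, ∀ L, 2 ≤ L → f L ≤ L ^ e

theorem PB.const (a : ℕ) : PB fun _ => a := ⟨a, fun _ hL => le_pow_self' hL a⟩

theorem PB.pow (e : ℕ) : PB fun L => L ^ e := ⟨e, fun _ _ => le_rfl⟩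

theorem PB.add {f g : ℕ → ℕ} (hf : PB f) (hg : PB g) : PB fun L => f L + g L := by
  obtain ⟨e, he⟩ := hf
  obtain ⟨e', he'⟩ := hg
  refine ⟨e + e' + 1, fun L hL => ?_⟩
  have h1 := (he L hL).trans (pw hL (show e ≤ e + e' by omega))
  have h2 := (he' L hL).trans (pw hL (show e' ≤ e + e' by omega))
  have h3 : L ^ (e + e') * 2 ≤ L ^ (e + e') * L := Nat.mul_le_mul_left _ hL
  rw [pow_succ]
  change f L + g L ≤ _
  omega

theorem PB.mul {f g : ℕ → ℕ} (hf : PB f) (hg : PB g) : PB fun L => f L * g L := by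
  obtain ⟨e, he⟩ := hf
  obtain ⟨e', he'⟩ := hg
  refine ⟨e + e', fun L hL => ?_⟩
  rw [pow_add]
  exact Nat.mul_le_mul (he L hL) (he' L hL)

end Pool.Agent.Lib.PTC
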