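import Pool.Agent.Lib.PTC.Rec
import Pool.Agent.Lib.PTC.Def

/-! Polynomial time functions between tuples of natural numbers. -/

set_option autoImplicit false
set_option linter.unusedVariables false

namespace Pool.Agent.Lib.PTC

open PRam

/-- Tuples of natural numbers. -/
class Tup (σ : Type) where
  n : ℕ
  get : σ → Fin n → ℕ
  of : (Fin n → ℕ) → σ
  get_of : ∀ v, get (of v) = v
  of_get : ∀ p, of (get p) = p

instance : Tup ℕ where
  n := 1
  get p _ := p
  of v := v 0
  get_of v := by funext i; rw [Subsingleton.elim i 0]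
  of_get _ := rfl

instance : Tup Unit where
  n := 0
  get _ _ := 0
  of _ := ()
  get_of v := by funext i; exact i.elim0
  of_get _ := rfl

instance {σ τ : Type} [Tup σ] [Tup τ] : Tup (σ × τ) where
  n := Tup.n σ + Tup.n τ
  get p := Fin.append (Tup.get p.1) (Tup.get p.2)
  of v := (Tup.of fun i => v (Fin.castAdd _ i), Tup.of fun i => v (Fin.natAdd _ i))
  get_of v := by
    rw [Tup.get_of, Tup.get_of]
    exact Fin.append_castAdd_natAdd
  of_get p := by
    simp only [Fin.append_left, Fin.append_right, Tup.of_get]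

/-- All entries are smaller than `B`. -/
def Lt {σ : Type} [Tup σ] (w : σ) (B : ℕ) : Prop := ∀ j, Tup.get w j < B

theorem lt_nat {w B : ℕ} : Lt w B ↔ w < B := ⟨fun h => h 0, fun h _ => h⟩

theorem lt_unit {w : Unit} {B : ℕ} : Lt w B ↔ True := ⟨fun _ => trivial, fun _ j => j.elim0⟩

theorem lt_prod {σ τ : Type} [Tup σ] [Tup τ] {w : σ × τ} {B : ℕ} :
    Lt w B ↔ Lt w.1 B ∧ Lt w.2 B := by
  constructor
  · intro h
    refine ⟨fun j => ?_, fun j => ?_⟩
    · have := h (Fin.castAdd _ j)
      change Fin.append (Tup.get w.1) (Tup.get w.2) (Fin.castAdd _ j) < B at this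
      rwa [Fin.append_left] at this
    · have := h (Fin.natAdd _ j)
      change Fin.append (Tup.get w.1) (Tup.get w.2) (Fin.natAdd _ j) < B at this
      rwa [Fin.append_right] at this
  · rintro ⟨h1, h2⟩ j
    change Fin.append (Tup.get w.1) (Tup.get w.2) j < B
    refine Fin.addCases (fun j => ?_) (fun j => ?_) j
    · rw [Fin.append_left]; exact h1 j
    · rw [Fin.append_right]; exact h2 j

theorem Lt.mono {σ : Type} [Tup σ] {w : σ} {B B' : ℕ} (h : Lt w B) (hB : B ≤ B') : Lt w B' :=
  fun j => (h j).trans_le hB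

variable {S : List ℤ → ℕ} {σ τ ρ : Type} [Tup σ] [Tup τ] [Tup ρ]

/-- Polynomial time functions between tuples (`S` is the size parameter). -/
def Comp (S : List ℤ → ℕ) (f : List ℤ → σ → τ) : Prop :=
  ∀ j, CompN S fun x v => Tup.get (f x (Tup.of v)) j

/-- Polynomial time properties. -/
def CompP (S : List ℤ → ℕ) (P : List ℤ → σ → Prop) : Prop :=
  ∃ c : List ℤ → σ → ℕ, Comp S c ∧ ∀ x w, c x w ≠ 0 ↔ P x w

/-- Functions with values which may be stored: of polynomially many digits. -/
def Bd (S : List ℤ → ℕ) (F : List ℤ → σ → ℕ) : Prop :=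
  ∃ e : ℕ, ∀ (x : List ℤ) (L : ℕ) (w : σ), Adm S x L → Lt w (2 ^ L) → F x w < 2 ^ L ^ e

/-- Polynomially bounded functions: numbers of iterations. -/
def Tm (S : List ℤ → ℕ) (F : List ℤ → σ → ℕ) : Prop :=
  ∃ e : ℕ, ∀ (x : List ℤ) (L : ℕ) (w : σ), Adm S x L → Lt w (2 ^ L) → F x w ≤ L ^ e

protected theorem Comp.nat {f : List ℤ → σ → ℕ} : Comp S f ↔ CompN S fun x v => f x (Tup.of v) :=
  ⟨fun h => h 0, fun h _ => h⟩

protected theorem Comp.bound {f : List ℤ → σ → τ} (hf : Comp S f) :
    ∃ e : ℕ, 0 < e ∧ ∀ (x : List ℤ) (L : ℕ) (w : σ), Adm S x L → Lt w (2 ^ L) →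
      Lt (f x w) (2 ^ L ^ e) := by
  choose e he _ using hf
  refine ⟨∑ j, e j + 1, by omega, fun x L w hL hw j => ?_⟩
  have h := he j x L (Tup.get w) hL hw
  simp only [Tup.of_get] at h
  have h1 := Finset.single_le_sum (f := e) (fun i _ => Nat.zero_le _) (Finset.mem_univ j)
  exact h.trans_le (ppw hL.two (by omega))

protected theorem Comp.comp {g : List ℤ → τ → ρ} {f : List ℤ → σ → τ} (hg : Comp S g) (hf : Comp S f) :
    Comp S fun x w => g x (f x w) := by
  intro j
  have h := CompN.comp (hg j) hf
  simpa only [Tup.of_get] using h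

protected theorem Comp.id : Comp S fun _ (w : σ) => w := by
  intro j
  simpa only [Tup.get_of] using CompN.proj (S := S) j

protected theorem Comp.fst {f : List ℤ → σ → τ × ρ} (hf : Comp S f) : Comp S fun x w => (f x w).1 := by
  intro j
  have h := hf (Fin.castAdd _ j)
  change CompN S (fun x v => Fin.append (Tup.get (f x (Tup.of v)).1) (Tup.get (f x (Tup.of v)).2)
    (Fin.castAdd _ j)) at h
  simpa only [Fin.append_left] using h

protected theorem Comp.snd {f : List ℤ → σ → τ × ρ} (hf : Comp S f) : Comp S fun x w => (f x w).2 := by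
  intro j
  have h := hf (Fin.natAdd _ j)
  change CompN S (fun x v => Fin.append (Tup.get (f x (Tup.of v)).1) (Tup.get (f x (Tup.of v)).2)
    (Fin.natAdd _ j)) at h
  simpa only [Fin.append_right] using h

protected theorem Comp.pair {f : List ℤ → σ → τ} {g : List ℤ → σ → ρ} (hf : Comp S f) (hg : Comp S g) :
    Comp S fun x w => (f x w, g x w) := by
  intro j
  change CompN S (fun x v => Fin.append (Tup.get (f x (Tup.of v))) (Tup.get (g x (Tup.of v))) j)
  refine Fin.addCases (fun j => ?_) (fun j => ?_) j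
  · simpa only [Fin.append_left] using hf j
  · simpa only [Fin.append_right] using hg j

protected theorem Comp.const (c : τ) : Comp S fun _ (_ : σ) => c := fun _ => CompN.const _

protected theorem Comp.of_eq {f g : List ℤ → σ → τ} (hf : Comp S f) (h : ∀ x w, f x w = g x w) :
    Comp S g := by
  have : f = g := by funext x w; exact h x w
  exact this ▸ hf

/-- The length of the input. -/
protected theorem Comp.length : Comp S fun x (_ : σ) => x.length := by
  rw [Comp.nat]
  exact CompN.length

/-- The entries of the input. -/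
protected theorem Comp.inp {f : List ℤ → σ → ℕ} (hf : Comp S f) :
    Comp S fun x w => inp x (f x w) := by
  rw [Comp.nat] at hf ⊢
  exact CompN.comp CompN.inp fun _ => hf

theorem comp₂ {H : ℕ → ℕ → ℕ} (hH : CompN S (k := 2) fun _ v => H (v 0) (v 1))
    {f g : List ℤ → σ → ℕ} (hf : Comp S f) (hg : Comp S g) : Comp S fun x w => H (f x w) (g x w) := by
  rw [Comp.nat] at hf hg ⊢
  have h := CompN.comp hH (G := ![fun x v => f x (Tup.of v), fun x v => g x (Tup.of v)])
    (fun i => by
      fin_cases i
      · exact hf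
      · exact hg)
  exact h

protected theorem Comp.add {f g : List ℤ → σ → ℕ} (hf : Comp S f) (hg : Comp S g) :
    Comp S fun x w => f x w + g x w := comp₂ (H := fun a b => a + b) CompN.add hf hg

protected theorem Comp.mul {f g : List ℤ → σ → ℕ} (hf : Comp S f) (hg : Comp S g) :
    Comp S fun x w => f x w * g x w := comp₂ (H := fun a b => a * b) CompN.mul hf hg

protected theorem Comp.sub {f g : List ℤ → σ → ℕ} (hf : Comp S f) (hg : Comp S g) :
    Comp S fun x w => f x w - g x w := comp₂ (H := fun a b => a - b) CompN.sub hf hg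

protected theorem Comp.div {f g : List ℤ → σ → ℕ} (hf : Comp S f) (hg : Comp S g) :
    Comp S fun x w => f x w / g x w := comp₂ (H := fun a b => a / b) CompN.div hf hg

protected theorem Comp.mod {f g : List ℤ → σ → ℕ} (hf : Comp S f) (hg : Comp S g) :
    Comp S fun x w => f x w % g x w := comp₂ (H := fun a b => a % b) CompN.mod hf hg

protected theorem Comp.succ {f : List ℤ → σ → ℕ} (hf : Comp S f) : Comp S fun x w => f x w + 1 :=
  hf.add (Comp.const 1)

protected theorem Comp.pred {f : List ℤ → σ → ℕ} (hf : Comp S f) : Comp S fun x w => f x w - 1 :=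
  hf.sub (Comp.const 1)

protected theorem Comp.ite0 {c : List ℤ → σ → ℕ} {f g : List ℤ → σ → τ} (hc : Comp S c) (hf : Comp S f)
    (hg : Comp S g) : Comp S fun x w => if c x w = 0 then f x w else g x w := by
  intro j
  rw [Comp.nat] at hc
  have h := CompN.comp (CompN.ite (S := S)) (G := ![fun x v => c x (Tup.of v),
    fun x v => Tup.get (f x (Tup.of v)) j, fun x v => Tup.get (g x (Tup.of v)) j])
    (fun i => by
      fin_cases i
      · exact hc
      · exact hf j
      · exact hg j)
  refine (congrArg (CompN S) ?_).mp h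
  funext x v
  simp only [Matrix.cons_val]
  split_ifs <;> rfl

/-- Case distinction. -/
protected theorem Comp.ite {P : List ℤ → σ → Prop} [∀ x w, Decidable (P x w)] {f g : List ℤ → σ → τ}
    (hP : CompP S P) (hf : Comp S f) (hg : Comp S g) :
    Comp S fun x w => if P x w then f x w else g x w := by
  obtain ⟨c, hc, h⟩ := hP
  refine (Comp.ite0 hc hg hf).of_eq fun x w => ?_
  by_cases h0 : c x w = 0
  · rw [if_pos h0, if_neg (fun hP => (h x w).2 hP h0)]
  · rw [if_neg h0, if_pos ((h x w).1 h0)]

/-- Bounded recursion. -/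
protected theorem Comp.itr {h : List ℤ → σ → ℕ → τ → τ} {g : List ℤ → σ → τ} {T : List ℤ → σ → ℕ}
    (hh : Comp S fun x (p : σ × ℕ × τ) => h x p.1 p.2.1 p.2.2) (hg : Comp S g) (hT : Comp S T)
    (hTm : Tm S T)
    (hb : ∃ e : ℕ, ∀ (x : List ℤ) (L : ℕ) (w : σ), Adm S x L → Lt w (2 ^ L) →
      ∀ i ≤ T x w, Lt (itr (h x w) (g x w) i) (2 ^ L ^ e)) :
    Comp S fun x w => itr (h x w) (g x w) (T x w) := by
  intro j
  rw [Comp.nat] at hT
  -- the recursion in coordinates
  let h' : Fin (Tup.n τ) → List ℤ → (Fin (Tup.n σ + 1 + Tup.n τ) → ℕ) → ℕ := fun j x v =>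
    Tup.get (h x (Tup.of fun i => v (Fin.castAdd _ (Fin.castAdd _ i)))
      (v (Fin.castAdd _ (Fin.natAdd _ 0))) (Tup.of fun i => v (Fin.natAdd _ i))) j
  have key : ∀ (x : List ℤ) (v : Fin (Tup.n σ) → ℕ) (i : ℕ),
      PTC.iter (fun j x v => Tup.get (g x (Tup.of v)) j) h' x v i =
        Tup.get (itr (h x (Tup.of v)) (g x (Tup.of v)) i) := by
    intro x v i
    induction i with
    | zero => rfl
    | succ i ih =>
      funext j
      change h' j x (app3 v i (PTC.iter _ h' x v i)) = _
      rw [ih]
      simp only [h', app3, Fin.append_left, Fin.append_right, Tup.of_get]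
      rfl
  have hh' : ∀ j, CompN S (h' j) := by
    intro j
    -- regroup the arguments
    have h1 := hh j
    let G : Fin (Tup.n (σ × ℕ × τ)) → List ℤ → (Fin (Tup.n σ + 1 + Tup.n τ) → ℕ) → ℕ :=
      Fin.append (fun i _ v => v (Fin.castAdd _ (Fin.castAdd _ i)))
        (Fin.append (fun _ : Fin 1 => fun _ v => v (Fin.castAdd _ (Fin.natAdd _ 0)))
          (fun i _ v => v (Fin.natAdd _ i)))
    have h2 := CompN.comp h1 (G := G) (fun i => by
      refine Fin.addCases (fun i => ?_) (fun i => ?_) i
      · simp only [G, Fin.append_left]; exact CompN.proj _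
      · refine Fin.addCases (fun i => ?_) (fun i => ?_) i
        · simp only [G, Fin.append_right, Fin.append_left]; exact CompN.proj _
        · simp only [G, Fin.append_right]; exact CompN.proj _)
    refine (congrArg (CompN S) ?_).mp h2
    funext x v
    simp only [h']
    congr 2
    · change Tup.of (fun i => G (Fin.castAdd _ i) x v) = _
      simp only [G, Fin.append_left]
    · change G (Fin.natAdd _ (Fin.castAdd _ 0)) x v = _
      simp only [G, Fin.append_right, Fin.append_left]
    · change Tup.of (fun i => G (Fin.natAdd _ (Fin.natAdd _ i)) x v) = _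
      simp only [G, Fin.append_right]
  have h3 := CompN.iter hg hh' hT (by
    obtain ⟨e, he⟩ := hTm
    exact ⟨e, fun x L v hL hv => he x L (Tup.of v) hL fun j => by rw [Tup.get_of]; exact hv j⟩) (by
    obtain ⟨e, he⟩ := hb
    refine ⟨e, fun x L v hL hv i hi j => ?_⟩
    rw [key]
    exact he x L (Tup.of v) hL (fun j => by rw [Tup.get_of]; exact hv j) i hi j) j
  refine (congrArg (CompN S) ?_).mp h3
  funext x v
  exact congrFun (key x v _) j

end Pool.Agent.Lib.PTC
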