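import Pool.Agent.Lib.PTC.Base

/-! Functions computed in polynomial time. -/

set_option autoImplicit false
set_option linter.unusedVariables false

namespace Pool.Agent.Lib.PTC

open PRam

variable {S : List ℤ → ℕ}

/-- `f` is computed by a program: from the registers `a i` into the register `r`, the registers
from `N` on are scratch; if `L` is an admissible scale and the arguments are smaller than `2 ^ L` then
all values are smaller than `2 ^ L ^ e` and the program makes at most `L ^ e` steps. -/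
def CompN (S : List ℤ → ℕ) {k : ℕ} (f : List ℤ → (Fin k → ℕ) → ℕ) : Prop :=
  ∃ e : ℕ, (∀ (x : List ℤ) (L : ℕ) (v : Fin k → ℕ), Adm S x L → (∀ i, v i < 2 ^ L) →
      f x v < 2 ^ L ^ e) ∧
    ∀ (a : Fin k → ℕ) (r N : ℕ), (∀ i, a i < N) → r < N → 0 < r → (∀ i, a i ≠ r) → ∃ c : Cmd,
      ∀ (x : List ℤ) (L : ℕ) (v : Fin k → ℕ) (σ : St), Adm S x L → (∀ i, v i < 2 ^ L) →
        Env x σ → (∀ i, σ.reg (a i) = v i) →
          Run (2 ^ L ^ e) c σ [] (L ^ e) (Put N r (f x v) σ)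

theorem Run.assign {W : ℕ} {σ : St} {Q : St → Prop} {d : ℕ} {e : Expr} {T : ℕ} (h : e.ok W σ)
    (hT : e.size + 2 ≤ T) (hQ : Q (σ.set d (e.eval σ))) : Run W (.assign d e) σ [] T Q :=
  ⟨_, _, hT, .assign σ d e h, hQ⟩

theorem put_set {N r y : ℕ} {σ : St} {z : ℤ} (h : z = y) : Put N r y σ (σ.set r z) := by
  refine ⟨rfl, ?_, fun u _ hu => ?_⟩
  · rw [St.set_reg, if_pos rfl, h]
  · rw [St.set_reg, if_neg hu]

/-- Functions given by an expression. -/
theorem CompN.of_expr {k : ℕ} {f : List ℤ → (Fin k → ℕ) → ℕ} (E : (Fin k → ℕ) → Expr) (z e : ℕ)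
    (hz : ∀ a, (E a).size ≤ z)
    (hf : ∀ (x : List ℤ) (L : ℕ) (v : Fin k → ℕ), Adm S x L → (∀ i, v i < 2 ^ L) →
      f x v < 2 ^ L ^ e)
    (hE : ∀ (a : Fin k → ℕ) (x : List ℤ) (L : ℕ) (v : Fin k → ℕ) (σ : St), Adm S x L →
      (∀ i, v i < 2 ^ L) → Env x σ → (∀ i, σ.reg (a i) = v i) →
        (E a).ok (2 ^ L ^ e) σ ∧ (E a).eval σ = f x v) : CompN S f := by
  refine ⟨e + (z + 2), fun x L v hL hv => (hf x L v hL hv).trans_le (ppw hL.two (by omega)),
    fun a r N _ _ _ _ => ⟨.assign r (E a), fun x L v σ hL hv hσ ha => ?_⟩⟩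
  obtain ⟨h1, h2⟩ := hE a x L v σ hL hv hσ ha
  refine Run.assign (ok_mono (ppw hL.two (by omega)) _ h1) ?_ (put_set h2)
  have h3 := le_pow_self' hL.two (z + 2)
  have h4 := pw hL.two (show z + 2 ≤ e + (z + 2) by omega)
  have h5 := hz a
  omega

theorem lt_pp {S : List ℤ → ℕ} {x : List ℤ} {L : ℕ} (hL : Adm S x L) {m e : ℕ} (h : m < 2 ^ L) (he : 0 < e) :
    m < 2 ^ L ^ e :=
  h.trans_le (Nat.pow_le_pow_right (by omega) (Nat.le_self_pow he.ne' L))

theorem lt_pp2 {L m : ℕ} (hL : 2 ≤ L) (h : m < 2 ^ (L + L)) : m < 2 ^ L ^ 2 := by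
  refine h.trans_le (Nat.pow_le_pow_right (by omega) ?_)
  nlinarith

theorem CompN.proj {k : ℕ} (i : Fin k) : CompN S (fun _ v => v i) :=
  CompN.of_expr (fun a => .var (a i)) 2 1 (fun _ => le_rfl)
    (fun x L v hL hv => lt_pp hL (hv i) one_pos) fun a x L v σ _ _ _ ha => ⟨trivial, ha i⟩

theorem const_lt {L : ℕ} (hL : 2 ≤ L) (m : ℕ) : m < 2 ^ L ^ m :=
  (le_pow_self' hL m).trans_lt Nat.lt_two_pow_self

theorem CompN.const {k : ℕ} (m : ℕ) : CompN S (k := k) (fun _ _ => m) :=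
  CompN.of_expr (fun _ => .lit m) 1 m (fun _ => le_rfl)
    (fun x L v hL hv => const_lt hL.two m) fun a x L v σ hL _ _ _ =>
      ⟨by show (m : ℤ).natAbs ≤ _; rw [Int.natAbs_natCast]; exact (const_lt hL.two m).le, rfl⟩

theorem add_lt' {L a b : ℕ} (hL : 2 ≤ L) (ha : a < 2 ^ L) (hb : b < 2 ^ L) : a + b < 2 ^ (L + L) := by
  rw [pow_add]
  have h : 2 ≤ 2 ^ L := by
    calc 2 = 2 ^ 1 := rfl
      _ ≤ 2 ^ L := Nat.pow_le_pow_right (by omega) (by omega)
  nlinarith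

theorem mul_lt' {L a b : ℕ} (ha : a < 2 ^ L) (hb : b < 2 ^ L) : a * b < 2 ^ (L + L) := by
  rw [pow_add]
  exact Nat.mul_lt_mul'' ha hb

theorem CompN.add : CompN S (k := 2) (fun _ v => v 0 + v 1) := by
  refine CompN.of_expr (fun a => .add (.var (a 0)) (.var (a 1))) 5 2 (fun _ => le_rfl)
    (fun x L v hL hv => lt_pp2 hL.two (add_lt' hL.two (hv 0) (hv 1)))
    fun a x L v σ hL hv _ ha => ?_
  have e : (Expr.add (.var (a 0)) (.var (a 1))).eval σ = ((v 0 + v 1 : ℕ) : ℤ) := by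
    show σ.reg (a 0) + σ.reg (a 1) = _
    rw [ha, ha]
    push_cast
    rfl
  refine ⟨⟨trivial, trivial, ?_⟩, e⟩
  have e' : (Expr.var (a 0)).eval σ + (Expr.var (a 1)).eval σ = ((v 0 + v 1 : ℕ) : ℤ) := e
  rw [e', Int.natAbs_natCast]
  exact (lt_pp2 hL.two (add_lt' hL.two (hv 0) (hv 1))).le

theorem CompN.mul : CompN S (k := 2) (fun _ v => v 0 * v 1) := by
  refine CompN.of_expr (fun a => .mul (.var (a 0)) (.var (a 1))) 5 2 (fun _ => le_rfl)
    (fun x L v hL hv => lt_pp2 hL.two (mul_lt' (hv 0) (hv 1)))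
    fun a x L v σ hL hv _ ha => ?_
  have e : (Expr.mul (.var (a 0)) (.var (a 1))).eval σ = ((v 0 * v 1 : ℕ) : ℤ) := by
    show σ.reg (a 0) * σ.reg (a 1) = _
    rw [ha, ha]
    push_cast
    rfl
  refine ⟨⟨trivial, trivial, ?_⟩, e⟩
  have e' : (Expr.var (a 0)).eval σ * (Expr.var (a 1)).eval σ = ((v 0 * v 1 : ℕ) : ℤ) := e
  rw [e', Int.natAbs_natCast]
  exact (lt_pp2 hL.two (mul_lt' (hv 0) (hv 1))).le

theorem CompN.div : CompN S (k := 2) (fun _ v => v 0 / v 1) := by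
  refine CompN.of_expr (fun a => .div (.var (a 0)) (.var (a 1))) 5 1 (fun _ => le_rfl)
    (fun x L v hL hv => lt_pp hL ((Nat.div_le_self _ _).trans_lt (hv 0)) one_pos)
    fun a x L v σ hL hv _ ha => ⟨⟨trivial, trivial⟩, ?_⟩
  show σ.reg (a 0) / σ.reg (a 1) = _
  rw [ha, ha]
  push_cast
  rfl

theorem CompN.mod : CompN S (k := 2) (fun _ v => v 0 % v 1) := by
  refine CompN.of_expr (fun a => .sub (.var (a 0)) (.mul (.div (.var (a 0)) (.var (a 1)))
    (.var (a 1)))) 11 1 (fun _ => le_rfl)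
    (fun x L v hL hv => lt_pp hL ((Nat.mod_le _ _).trans_lt (hv 0)) one_pos)
    fun a x L v σ hL hv _ ha => ?_
  have h1 : v 0 / v 1 * v 1 ≤ v 0 := Nat.div_mul_le_self _ _
  have e1 : (Expr.mul (.div (.var (a 0)) (.var (a 1))) (.var (a 1))).eval σ =
      ((v 0 / v 1 * v 1 : ℕ) : ℤ) := by
    show σ.reg (a 0) / σ.reg (a 1) * σ.reg (a 1) = _
    rw [ha, ha]
    push_cast
    rfl
  have e2 : (Expr.sub (.var (a 0)) (.mul (.div (.var (a 0)) (.var (a 1)))
      (.var (a 1)))).eval σ = ((v 0 % v 1 : ℕ) : ℤ) := by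
    show σ.reg (a 0) - (Expr.mul (.div (.var (a 0)) (.var (a 1))) (.var (a 1))).eval σ = _
    rw [e1, ha]
    have h2 := Nat.div_add_mod (v 0) (v 1)
    rw [mul_comm] at h2
    omega
  have hb : v 0 ≤ 2 ^ L ^ 1 := by rw [pow_one]; exact (hv 0).le
  refine ⟨⟨trivial, ⟨⟨trivial, trivial⟩, trivial, ?_⟩, ?_⟩, e2⟩
  · have e' : (Expr.div (.var (a 0)) (.var (a 1))).eval σ * (Expr.var (a 1)).eval σ =
      ((v 0 / v 1 * v 1 : ℕ) : ℤ) := e1
    rw [e', Int.natAbs_natCast]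
    exact h1.trans hb
  · have e' : (Expr.var (a 0)).eval σ - (Expr.mul (.div (.var (a 0)) (.var (a 1)))
      (.var (a 1))).eval σ = ((v 0 % v 1 : ℕ) : ℤ) := e2
    rw [e', Int.natAbs_natCast]
    exact (Nat.mod_le _ _).trans hb

/-- The length of the input. -/
theorem CompN.length {k : ℕ} : CompN S (k := k) (fun x _ => x.length) :=
  CompN.of_expr (fun _ => .var 0) 2 1 (fun _ => le_rfl)
    (fun x L v hL hv => lt_pp hL (hL.valid.1.trans_lt Nat.lt_two_pow_self) one_pos)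
    fun a x L v σ _ _ hσ _ => ⟨trivial, hσ.1⟩

/-- The entries of the input. -/
theorem CompN.inp : CompN S (k := 1) (fun x v => (x.getD (v 0) 0).toNat) := by
  refine CompN.of_expr (fun a => .load (.var (a 0))) 3 1 (fun _ => le_rfl) (fun x L v hL hv => ?_)
    fun a x L v σ hL _ hσ ha => ⟨trivial, ?_⟩
  · have h := hL.valid.getD (v 0)
    refine lt_pp hL ?_ one_pos
    have h1 : (((x.getD (v 0) 0).toNat : ℕ) : ℤ) < 2 ^ L := by
      rw [Int.toNat_of_nonneg h.1]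
      exact h.2
    exact_mod_cast h1
  · have h := hL.valid.getD (v 0)
    show σ.mem (σ.reg (a 0)).toNat = _
    rw [ha, Int.toNat_natCast, hσ.2, Int.toNat_of_nonneg h.1]

/-- Truncated difference. -/
theorem CompN.sub : CompN S (k := 2) (fun _ v => v 0 - v 1) := by
  refine ⟨11, fun x L v hL hv => lt_pp hL ((Nat.sub_le _ _).trans_lt (hv 0)) (by omega),
    fun a r N _ _ _ _ => ⟨.ifpos (.sub (.var (a 0)) (.var (a 1)))
      (.assign r (.sub (.var (a 0)) (.var (a 1)))) (.assign r (.lit 0)),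
      fun x L v σ hL hv hσ ha => ?_⟩⟩
  have e : (Expr.sub (.var (a 0)) (.var (a 1))).eval σ = (v 0 : ℤ) - v 1 := by
    show σ.reg (a 0) - σ.reg (a 1) = _
    rw [ha, ha]
  have hW : ∀ i, v i ≤ 2 ^ L ^ 11 := fun i => (lt_pp hL (hv i) (by omega)).le
  have hok : (Expr.sub (.var (a 0)) (.var (a 1))).ok (2 ^ L ^ 11) σ := by
    refine ⟨trivial, trivial, ?_⟩
    have e' : (Expr.var (a 0)).eval σ - (Expr.var (a 1)).eval σ = (v 0 : ℤ) - v 1 := e
    rw [e']
    have := hW 0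
    have := hW 1
    omega
  have hT : 15 ≤ L ^ 11 := by
    calc 15 ≤ 2 ^ 11 := by norm_num
      _ ≤ L ^ 11 := Nat.pow_le_pow_left hL.two 11
  refine Run.ifpos (T' := 7) hok (fun h => ?_) (fun h => ?_) hT
  · refine Run.assign hok le_rfl (put_set ?_)
    rw [e] at h ⊢
    show _ = ((v 0 - v 1 : ℕ) : ℤ)
    omega
  · refine Run.assign (Nat.zero_le _) (by show 1 + 2 ≤ 7; omega) (put_set ?_)
    rw [e] at h
    show (0 : ℤ) = ((v 0 - v 1 : ℕ) : ℤ)
    omega

/-- `if v = 0 then w else z` -/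
theorem CompN.ite : CompN S (k := 3) (fun _ v => if v 0 = 0 then v 1 else v 2) := by
  refine ⟨4, fun x L v hL hv => ?_, fun a r N _ _ _ _ =>
    ⟨.ite (.var (a 0)) (.assign r (.var (a 2))) (.assign r (.var (a 1))),
      fun x L v σ hL hv hσ ha => ?_⟩⟩
  · change (if v 0 = 0 then v 1 else v 2) < _
    split_ifs
    · exact lt_pp hL (hv 1) (by omega)
    · exact lt_pp hL (hv 2) (by omega)
  · have hT : 8 ≤ L ^ 4 := by
      calc 8 ≤ 2 ^ 4 := by norm_num
        _ ≤ L ^ 4 := Nat.pow_le_pow_left hL.two 4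
    have e : ∀ i, (Expr.var (a i)).eval σ = v i := ha
    change Run _ _ σ [] _ (Put N r (if v 0 = 0 then v 1 else v 2) σ)
    refine Run.ite (T' := 4) trivial (fun h => ?_) (fun h => ?_) hT
    · rw [e] at h
      rw [if_neg (by omega)]
      exact Run.assign trivial le_rfl (put_set (e 2))
    · rw [e] at h
      rw [if_pos (by omega)]
      exact Run.assign trivial le_rfl (put_set (e 1))

/-! ### Blocks -/

/-- Run `m` programs one after the other. -/
def seqAll : (m : ℕ) → (Fin m → Cmd) → Cmd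
  | 0, _ => .skip
  | m + 1, c => .seq (seqAll m fun i => c i.castSucc) (c (Fin.last m))

/-- `σ'` is `σ` with `w` in the registers `N, .., N + m - 1`; the registers from `M` on may have changed. -/
def Blk (M N : ℕ) {m : ℕ} (w : Fin m → ℕ) (σ σ' : St) : Prop :=
  σ'.mem = σ.mem ∧ (∀ j : Fin m, σ'.reg (N + j.val) = w j) ∧
    ∀ u < M, u < N ∨ N + m ≤ u → σ'.reg u = σ.reg u

/-- Filling a block. -/
theorem run_seqAll {W T M N n m : ℕ} (c : Fin m → Cmd) (w : Fin m → ℕ) (σ : St) (hM : N + n ≤ M)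
    (hm : m ≤ n)
    (h : ∀ (i : Fin m) (σ' : St), σ'.mem = σ.mem →
      (∀ u < M, u < N ∨ N + n ≤ u → σ'.reg u = σ.reg u) → Run W (c i) σ' [] T (Put M (N + i.val) (w i) σ')) :
    Run W (seqAll m c) σ [] (m * T) (Blk M N w σ) := by
  induction m with
  | zero => exact Run.skip ⟨rfl, fun j => j.elim0, fun u _ _ => rfl⟩
  | succ m ih =>
    refine Run.seqL (T₁ := m * T) (T₂ := T) ((ih (fun i => c i.castSucc) (fun i => w i.castSucc)
      (by omega) fun i σ' h1 h2 => h i.castSucc σ' h1 h2).mono le_rfl fun σ₁ h₁ => ?_) (by ring_nf; omega)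
    refine (h (Fin.last m) σ₁ h₁.1 fun u hu h' => h₁.2.2 u hu (by omega)).mono le_rfl fun σ₂ h₂ => ?_
    refine ⟨h₂.1.trans h₁.1, fun j => ?_, fun u hu h' => ?_⟩
    · refine Fin.lastCases ?_ (fun j => ?_) j
      · exact h₂.2.1
      · have h3 := j.isLt
        rw [h₂.2.2 (N + j.castSucc.val) (by simp only [Fin.val_castSucc]; omega)
          (by simp only [Fin.val_castSucc, Fin.val_last]; omega)]
        exact h₁.2.1 j
    · rw [h₂.2.2 u hu (by simp only [Fin.val_last]; omega)]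
      exact h₁.2.2 u hu (by omega)

theorem Env.blk {x : List ℤ} {M N m : ℕ} {w : Fin m → ℕ} {σ σ' : St} (h : Env x σ) (hN : 0 < N)
    (hM : 0 < M) (h' : Blk M N w σ σ') : Env x σ' :=
  ⟨(h'.2.2 0 hM (.inl hN)).trans h.1, fun i => by rw [h'.1]; exact h.2 i⟩

theorem env_of {x : List ℤ} {σ σ' : St} (h : Env x σ) (hm : σ'.mem = σ.mem)
    (h0 : σ'.reg 0 = σ.reg 0) : Env x σ' :=
  ⟨h0.trans h.1, fun i => by rw [hm]; exact h.2 i⟩

theorem pow_pow_le {L E e₁ e₂ : ℕ} (hL : 2 ≤ L) (h : E * e₁ ≤ e₂) : (L ^ E) ^ e₁ ≤ L ^ e₂ := by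
  rw [← pow_mul]
  exact pw hL h

/-- Composition. -/
theorem CompN.comp {k m : ℕ} {H : List ℤ → (Fin m → ℕ) → ℕ}
    {G : Fin m → List ℤ → (Fin k → ℕ) → ℕ} (hH : CompN S H) (hG : ∀ j, CompN S (G j)) :
    CompN S (fun x v => H x fun j => G j x v) := by
  choose eG bG pG using hG
  obtain ⟨eH, bH, pH⟩ := hH
  obtain ⟨E, hE⟩ : ∃ E, E = 1 + ∑ j, eG j := ⟨_, rfl⟩
  have hEj : ∀ j, eG j ≤ E := fun j => by
    have := Finset.single_le_sum (f := eG) (fun i _ => Nat.zero_le _) (Finset.mem_univ j)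
    omega
  have hGv : ∀ (x : List ℤ) (L : ℕ) (v : Fin k → ℕ), Adm S x L → (∀ i, v i < 2 ^ L) →
      ∀ j, G j x v < 2 ^ L ^ E := fun x L v hL hv j =>
    (bG j x L v hL hv).trans_le (ppw hL.two (hEj j))
  obtain ⟨D, hD⟩ := ((PB.const m).mul (PB.pow E)).add (PB.pow (E * eH))
  refine ⟨E * (eH + 1) + D, fun x L v hL hv => ?_, fun a r N ha hr hr0 har => ?_⟩
  · refine (bH x (L ^ E) _ (hL.pow (by omega)) (hGv x L v hL hv)).trans_le ?_
    exact Nat.pow_le_pow_right (by omega) (pow_pow_le hL.two (by nlinarith))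
  · choose c hc using fun j : Fin m => pG j a (N + j.val) (N + m)
      (fun i => by have := ha i; omega) (by omega) (by omega) (fun i => by have := ha i; omega)
    obtain ⟨d, hd⟩ := pH (fun j => N + j.val) r (N + m) (fun j => by omega) (by omega) hr0
      (fun j => by omega)
    refine ⟨.seq (seqAll m c) d, fun x L v σ hL hv hσ hav => ?_⟩
    have hE1 : E ≤ E * (eH + 1) + D := by nlinarith
    have h1 : Run (2 ^ L ^ (E * (eH + 1) + D)) (seqAll m c) σ [] (m * L ^ E)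
        (Blk (N + m) N (fun j => G j x v) σ) := by
      refine run_seqAll c _ σ le_rfl le_rfl fun j σ' h1 h2 => ?_
      have h3 : Env x σ' := env_of hσ h1 (h2 0 (by omega) (.inl (by omega)))
      have h4 := hc j x L v σ' hL hv h3 fun i => (h2 (a i) (by have := ha i; omega)
        (.inl (ha i))).trans (hav i)
      exact run_mono h4 (ppw hL.two ((hEj j).trans hE1)) (pw hL.two (hEj j)) fun _ h => h
    refine Run.seqL (T₂ := L ^ (E * eH)) (h1.mono le_rfl fun σ₁ h₁ => ?_)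
      ((hD L hL.two).trans (pw hL.two (by omega)))
    have h2 := hd x (L ^ E) (fun j => G j x v) σ₁ (hL.pow (by omega)) (hGv x L v hL hv)
      (hσ.blk (by omega) (by omega) h₁) h₁.2.1
    rw [← pow_mul] at h2
    refine run_mono h2 (ppw hL.two (by nlinarith)) le_rfl fun σ₂ h₂ => ⟨h₂.1.trans h₁.1, h₂.2.1,
      fun u hu hur => ?_⟩
    exact (h₂.2.2 u (by omega) hur).trans (h₁.2.2 u (by omega) (.inl hu))

end Pool.Agent.Lib.PTC
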