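import Pool.Agent.Lib.PTC.Arith

/-! More closure properties: functions which are computed correctly where they are used. -/

set_option autoImplicit false
set_option linter.unusedVariables false

namespace Pool.Agent.Lib.PTC

open PRam

variable {S : List ℤ → ℕ} {σ τ ρ : Type} [Tup σ] [Tup τ] [Tup ρ]

/-- Additional arguments. -/
protected theorem Comp.up {f : List ℤ → σ → τ} (hf : Comp S f) : Comp S fun x (p : σ × ρ) => f x p.1 :=
  hf.comp Comp.id.fst

protected theorem Tm.up {f : List ℤ → σ → ℕ} (hf : Tm S f) : Tm S fun x (p : σ × ρ) => f x p.1 :=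
  hf.comp Comp.id.fst

protected theorem Bd.up {f : List ℤ → σ → ℕ} (hf : Bd S f) : Bd S fun x (p : σ × ρ) => f x p.1 :=
  hf.comp Comp.id.fst

protected theorem CompP.up {P : List ℤ → σ → Prop} (hP : CompP S P) :
    CompP S fun x (p : σ × ρ) => P x p.1 := hP.comp Comp.id.fst

protected theorem CompP.testBit_false {f i : List ℤ → σ → ℕ} (hf : Comp S f) (hi : Comp S i) :
    CompP S fun x w => (f x w).testBit (i x w) = false :=
  (CompP.testBit hf hi).not.congr fun x w => by simp

/-- The loop variable, cut off (so that it may be used as a number of iterations). -/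
protected theorem Comp.cut {T : List ℤ → σ → ℕ} (hT : Comp S T) :
    Comp S fun x (p : σ × ℕ) => min p.2 (T x p.1) := Comp.min Comp.id.snd hT.up

protected theorem Tm.cut {T : List ℤ → σ → ℕ} (hT : Tm S T) :
    Tm S fun x (p : σ × ℕ) => min p.2 (T x p.1) := Tm.min_right hT.up

protected theorem Comp.sum_of {f f' : List ℤ → σ → ℕ → ℕ} {T : List ℤ → σ → ℕ}
    (hf : Comp S fun x (p : σ × ℕ) => f' x p.1 p.2) (hT : Comp S T) (hTm : Tm S T)
    (h : ∀ x w, ∀ i < T x w, f x w i = f' x w i) :
    Comp S fun x w => ∑ i ∈ Finset.range (T x w), f x w i :=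
  (Comp.sum hf hT hTm).of_eq fun x w =>
    Finset.sum_congr rfl fun i hi => (h x w i (Finset.mem_range.1 hi)).symm

protected theorem Comp.prod_of {f f' : List ℤ → σ → ℕ → ℕ} {T : List ℤ → σ → ℕ}
    (hf : Comp S fun x (p : σ × ℕ) => f' x p.1 p.2) (hT : Comp S T) (hTm : Tm S T)
    (h : ∀ x w, ∀ i < T x w, f x w i = f' x w i) :
    Comp S fun x w => ∏ i ∈ Finset.range (T x w), f x w i :=
  (Comp.prod hf hT hTm).of_eq fun x w =>
    Finset.prod_congr rfl fun i hi => (h x w i (Finset.mem_range.1 hi)).symm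

/-- Recursion with an invariant: the step function `h` agrees with the computable function `h'` on
the reachable values, which satisfy the bound. -/
protected theorem Comp.itr_of {h h' : List ℤ → σ → ℕ → τ → τ} {g : List ℤ → σ → τ}
    {T F : List ℤ → σ → ℕ} (P : List ℤ → σ → ℕ → τ → Prop)
    (hh : Comp S fun x (p : σ × ℕ × τ) => h' x p.1 p.2.1 p.2.2) (hg : Comp S g) (hT : Comp S T)
    (hTm : Tm S T) (hF : Bd S F) (h0 : ∀ x w, P x w 0 (g x w))
    (hs : ∀ x w, ∀ i < T x w, ∀ v, P x w i v → P x w (i + 1) (h x w i v) ∧ h x w i v = h' x w i v)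
    (hb : ∀ x w, ∀ i ≤ T x w, ∀ v, P x w i v → Lt v (F x w + 1)) :
    Comp S fun x w => itr (h x w) (g x w) (T x w) := by
  have key : ∀ x w, ∀ i ≤ T x w, P x w i (itr (h' x w) (g x w) i) := by
    intro x w i
    induction i with
    | zero => intro _; exact h0 x w
    | succ i ih =>
      intro hi
      obtain ⟨h1, h2⟩ := hs x w i (by omega) _ (ih (by omega))
      change P x w (i + 1) (h' x w i (itr (h' x w) (g x w) i))
      rw [← h2]
      exact h1
  refine (Comp.itr_le hh hg hT hTm hF fun x w i hi => hb x w i hi _ (key x w i hi)).of_eq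
    fun x w => (itr_congr (P x w) (h0 x w) (hs x w)).symm

end Pool.Agent.Lib.PTC
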