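import Pool.Agent.Lib.PTC.CompN

/-! Bounded recursion. -/

set_option autoImplicit false
set_option linter.unusedVariables false

namespace Pool.Agent.Lib.PTC

open PRam

variable {S : List ℤ → ℕ}

/-- The arguments of the recursion step: the parameters, the counter, the values. -/
def app3 {k m : ℕ} (v : Fin k → ℕ) (i : ℕ) (w : Fin m → ℕ) : Fin (k + 1 + m) → ℕ :=
  Fin.append (Fin.append v fun _ : Fin 1 => i) w

theorem app3_rel {k m : ℕ} {p : ℕ → ℕ → Prop} {a v : Fin k → ℕ} {b i : ℕ} {c w : Fin m → ℕ}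
    (hv : ∀ j, p (a j) (v j)) (hi : p b i) (hw : ∀ j, p (c j) (w j)) (j : Fin (k + 1 + m)) :
    p (app3 a b c j) (app3 v i w j) := by
  refine Fin.addCases (fun j => ?_) (fun j => ?_) j
  · refine Fin.addCases (fun j => ?_) (fun j => ?_) j
    · simpa [app3] using hv j
    · simpa [app3] using hi
  · simpa [app3] using hw j

theorem app3_all {k m : ℕ} {p : ℕ → Prop} {v : Fin k → ℕ} {i : ℕ} {w : Fin m → ℕ}
    (hv : ∀ j, p (v j)) (hi : p i) (hw : ∀ j, p (w j)) (j : Fin (k + 1 + m)) :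
    p (app3 v i w j) :=
  app3_rel (p := fun _ y => p y) (a := v) (b := i) (c := w) hv hi hw j

/-- The iteration. -/
def iter {k m : ℕ} (g : Fin m → List ℤ → (Fin k → ℕ) → ℕ)
    (h : Fin m → List ℤ → (Fin (k + 1 + m) → ℕ) → ℕ) (x : List ℤ) (v : Fin k → ℕ) :
    ℕ → Fin m → ℕ
  | 0, j => g j x v
  | i + 1, j => h j x (app3 v i (iter g h x v i))

/-- The registers during the loop. -/
def Lst (N : ℕ) {m : ℕ} (w : Fin m → ℕ) (i c : ℕ) (σ σ' : St) : Prop :=
  σ'.mem = σ.mem ∧ (∀ j : Fin m, σ'.reg (N + j.val) = w j) ∧ σ'.reg (N + m) = i ∧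
    σ'.reg (N + m + 1) = c ∧ ∀ u < N, σ'.reg u = σ.reg u

theorem Lst.congr {N m : ℕ} {w : Fin m → ℕ} {i c : ℕ} {σ σ₁ σ₂ : St} (h : Lst N w i c σ σ₁)
    (hm : σ₂.mem = σ₁.mem) (hr : ∀ u < N + m + 2, σ₂.reg u = σ₁.reg u) : Lst N w i c σ σ₂ :=
  ⟨hm.trans h.1, fun j => (hr _ (by omega)).trans (h.2.1 j), (hr _ (by omega)).trans h.2.2.1,
    (hr _ (by omega)).trans h.2.2.2.1, fun u hu => (hr u (by omega)).trans (h.2.2.2.2 u hu)⟩

/-- One pass of the loop. -/
def pass {m : ℕ} (N : ℕ) (d : Fin m → Cmd) : Cmd :=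
  .seq (.assign (N + m + 1) (.sub (.var (N + m + 1)) (.lit 1)))
    (.seq (seqAll m d)
      (.seq (seqAll m fun j => .assign (N + j.val) (.var (N + m + 2 + j.val)))
        (.assign (N + m) (.add (.var (N + m)) (.lit 1)))))

theorem run_pass {W B : ℕ} {m N : ℕ} (d : Fin m → Cmd) (σ : St) (w w' : Fin m → ℕ) (i c : ℕ)
    (hW : i + c + 2 ≤ W)
    (hd : ∀ (j : Fin m) (σ' : St), Lst N w i c σ σ' →
      Run W (d j) σ' [] B (Put (N + m + 2 + m) (N + m + 2 + j.val) (w' j) σ'))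
    (σ₁ : St) (h₁ : Lst N w i (c + 1) σ σ₁) :
    Run W (pass N d) σ₁ [] (12 + m * B + m * 4) (Lst N w' (i + 1) c σ) := by
  have e1 : (Expr.sub (.var (N + m + 1)) (.lit 1)).eval σ₁ = (c : ℤ) := by
    show σ₁.reg (N + m + 1) - 1 = _
    rw [h₁.2.2.2.1]
    push_cast
    ring
  refine Run.seqL (T₁ := 6) (T₂ := m * B + (m * 4 + 6)) (Run.assign ?_ le_rfl ?_) (by omega)
  · refine ⟨trivial, ?_, ?_⟩
    · show (1 : ℤ).natAbs ≤ W
      simp only [Int.natAbs_one]
      omega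
    · have e1' : (Expr.var (N + m + 1)).eval σ₁ - (Expr.lit 1).eval σ₁ = (c : ℤ) := e1
      rw [e1', Int.natAbs_natCast]
      omega
  rw [e1]
  have h₂ : Lst N w i c σ (σ₁.set (N + m + 1) c) := by
    refine ⟨h₁.1, fun j => ?_, ?_, ?_, fun u hu => ?_⟩
    · rw [St.set_reg, if_neg (by omega)]; exact h₁.2.1 j
    · rw [St.set_reg, if_neg (by omega)]; exact h₁.2.2.1
    · rw [St.set_reg, if_pos rfl]
    · rw [St.set_reg, if_neg (by omega)]; exact h₁.2.2.2.2 u hu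
  obtain ⟨σ₂, hσ₂⟩ : ∃ σ₂, σ₂ = σ₁.set (N + m + 1) c := ⟨_, rfl⟩
  rw [← hσ₂] at h₂ ⊢
  have r2 : Run W (seqAll m d) σ₂ [] (m * B) (Blk (N + m + 2 + m) (N + m + 2) w' σ₂) := by
    refine run_seqAll d w' σ₂ le_rfl le_rfl fun j σ' h1 h2 => ?_
    exact hd j σ' (h₂.congr h1 fun u hu => h2 u (by omega) (.inl hu))
  refine Run.seqL (r2.mono le_rfl fun σ₃ h₃ => ?_) le_rfl
  have h₃' : Lst N w i c σ σ₃ := h₂.congr h₃.1 fun u hu => h₃.2.2 u (by omega) (.inl hu)
  have r3 : Run W (seqAll m fun j : Fin m => .assign (N + j.val) (.var (N + m + 2 + j.val))) σ₃ []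
      (m * 4) (Blk (N + m + 2 + m) N w' σ₃) := by
    refine run_seqAll _ w' σ₃ (by omega) le_rfl fun j σ' h1 h2 => ?_
    refine Run.assign trivial le_rfl (put_set ?_)
    show σ'.reg (N + m + 2 + j.val) = _
    rw [h2 _ (by omega) (.inr (by omega))]
    exact h₃.2.1 j
  refine Run.seqL (r3.mono le_rfl fun σ₄ h₄ => ?_) le_rfl
  have e4 : (Expr.add (.var (N + m)) (.lit 1)).eval σ₄ = ((i + 1 : ℕ) : ℤ) := by
    show σ₄.reg (N + m) + 1 = _
    rw [h₄.2.2 (N + m) (by omega) (.inr le_rfl), h₃'.2.2.1]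
    push_cast
    ring
  refine Run.assign ?_ le_rfl ?_
  · refine ⟨trivial, ?_, ?_⟩
    · show (1 : ℤ).natAbs ≤ W
      simp only [Int.natAbs_one]
      omega
    · have e4' : (Expr.var (N + m)).eval σ₄ + (Expr.lit 1).eval σ₄ = ((i + 1 : ℕ) : ℤ) := e4
      rw [e4', Int.natAbs_natCast]
      omega
  rw [e4]
  refine ⟨?_, fun j => ?_, ?_, ?_, fun u hu => ?_⟩
  · exact h₄.1.trans h₃'.1
  · rw [St.set_reg, if_neg (by omega)]; exact h₄.2.1 j
  · rw [St.set_reg, if_pos rfl]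
  · rw [St.set_reg, if_neg (by omega), h₄.2.2 _ (by omega) (.inr (by omega))]
    exact h₃'.2.2.2.1
  · rw [St.set_reg, if_neg (by omega), h₄.2.2 _ (by omega) (.inl hu)]
    exact h₃'.2.2.2.2 u hu

theorem run_loop {W B : ℕ} {m N T : ℕ} (d : Fin m → Cmd) (σ : St) (w : ℕ → Fin m → ℕ)
    (hT : T + 1 ≤ W)
    (hd : ∀ i c : ℕ, i + c + 1 = T → ∀ (j : Fin m) (σ' : St), Lst N (w i) i c σ σ' →
      Run W (d j) σ' [] B (Put (N + m + 2 + m) (N + m + 2 + j.val) (w (i + 1) j) σ'))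
    (σ₁ : St) (h₁ : Lst N (w 0) 0 T σ σ₁) :
    Run W (.loop (.var (N + m + 1)) (pass N d)) σ₁ []
      (T * (2 + 2 + (12 + m * B + m * 4)) + (2 + 1)) (Lst N (w T) T 0 σ) := by
  refine (Run.loop (e := .var (N + m + 1)) (p := pass N d)
    (fun k σ' => k ≤ T ∧ Lst N (w (T - k)) (T - k) k σ σ') (12 + m * B + m * 4) T
    ⟨le_rfl, by rw [Nat.sub_self]; exact h₁⟩ (fun _ _ _ => trivial) ?_).mono le_rfl ?_
  · rintro k σ₂ ⟨hk, h₂⟩ he
    have he' : (k : ℤ) ≠ 0 := by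
      have h3 : (Expr.var (N + m + 1)).eval σ₂ = (k : ℤ) := h₂.2.2.2.1
      rwa [h3] at he
    obtain ⟨k', rfl⟩ := Nat.exists_eq_succ_of_ne_zero (n := k) (by exact_mod_cast he')
    refine ⟨k', rfl, ?_⟩
    have e1 : T - k' = T - (k' + 1) + 1 := by omega
    rw [e1]
    refine (run_pass d σ (w (T - (k' + 1))) (w (T - (k' + 1) + 1)) (T - (k' + 1)) k'
      (by omega) (hd (T - (k' + 1)) k' (by omega)) σ₂ h₂).mono le_rfl fun σ₃ h₃ => ⟨by omega, h₃⟩
  · rintro σ₂ ⟨he, k, hk, h₂⟩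
    have h3 : (Expr.var (N + m + 1)).eval σ₂ = (k : ℤ) := h₂.2.2.2.1
    rw [h3] at he
    have hk0 : k = 0 := by exact_mod_cast he
    subst hk0
    exact h₂

/-- Bounded recursion (for several functions at the same time). -/
theorem CompN.iter {k m : ℕ} {g : Fin m → List ℤ → (Fin k → ℕ) → ℕ}
    {h : Fin m → List ℤ → (Fin (k + 1 + m) → ℕ) → ℕ} {T : List ℤ → (Fin k → ℕ) → ℕ}
    (hg : ∀ j, CompN S (g j)) (hh : ∀ j, CompN S (h j)) (hT : CompN S T)
    (hTm : ∃ e : ℕ, ∀ (x : List ℤ) (L : ℕ) (v : Fin k → ℕ), Adm S x L → (∀ i, v i < 2 ^ L) →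
      T x v ≤ L ^ e)
    (hb : ∃ e : ℕ, ∀ (x : List ℤ) (L : ℕ) (v : Fin k → ℕ), Adm S x L → (∀ i, v i < 2 ^ L) →
      ∀ i ≤ T x v, ∀ j, iter g h x v i j < 2 ^ L ^ e) (j₀ : Fin m) :
    CompN S (fun x v => PTC.iter g h x v (T x v) j₀) := by
  choose eg bg pg using hg
  choose eh bh ph using hh
  obtain ⟨eT, bT, pT⟩ := hT
  obtain ⟨et, ht⟩ := hTm
  obtain ⟨eb, hb⟩ := hb
  obtain ⟨E, hE⟩ : ∃ E, E = 2 + ∑ j, eg j + eT + et + eb := ⟨_, rfl⟩
  obtain ⟨F, hF⟩ : ∃ F, F = 1 + ∑ j, eh j := ⟨_, rfl⟩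
  have hEj : ∀ j, eg j ≤ E := fun j => by
    have := Finset.single_le_sum (f := eg) (fun i _ => Nat.zero_le _) (Finset.mem_univ j)
    omega
  have hFj : ∀ j, eh j ≤ F := fun j => by
    have := Finset.single_le_sum (f := eh) (fun i _ => Nat.zero_le _) (Finset.mem_univ j)
    omega
  obtain ⟨D, hD⟩ := (((((PB.const m).mul (PB.pow E)).add (PB.pow E)).add (PB.const 3)).add
    (((PB.pow et).mul ((PB.const (2 + 2)).add (((PB.const 12).add
      ((PB.const m).mul (PB.pow (E * F)))).add (PB.const (m * 4))))).add (PB.const (2 + 1)))).add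
    (PB.const 4)
  have hEF : E ≤ E * F := Nat.le_mul_of_pos_right E (by omega)
  refine ⟨E * F + D, fun x L v hL hv => ?_, fun a r N ha hr hr0 har => ?_⟩
  · exact (hb x L v hL hv _ le_rfl j₀).trans_le (ppw hL.two (by omega))
  · choose cg hcg using fun j : Fin m => pg j a (N + j.val) (N + m + 2 + m)
      (fun i => by have := ha i; omega) (by omega) (by omega) (fun i => by have := ha i; omega)
    obtain ⟨cT, hcT⟩ := pT a (N + m + 1) (N + m + 2 + m) (fun i => by have := ha i; omega)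
      (by omega) (by omega) (fun i => by have := ha i; omega)
    choose ch hch using fun j : Fin m => ph j
      (app3 a (N + m) fun j : Fin m => N + j.val) (N + m + 2 + j.val) (N + m + 2 + m)
      (app3_all (p := fun z => z < N + m + 2 + m) (fun i => by have := ha i; omega) (by omega)
        (fun j => by omega)) (by omega) (by omega)
      (app3_all (p := fun z => z ≠ N + m + 2 + j.val) (fun i => by have := ha i; omega)
        (by omega) (fun j => by omega))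
    refine ⟨.seq (seqAll m cg) (.seq cT (.seq (.assign (N + m) (.lit 0))
      (.seq (.loop (.var (N + m + 1)) (pass N ch)) (.assign r (.var (N + j₀.val)))))),
      fun x L v σ hL hv hσ hav => ?_⟩
    have hL2 := hL.two
    have hN0 : 0 < N := by omega
    obtain ⟨w, hw⟩ : ∃ w, w = PTC.iter g h x v := ⟨_, rfl⟩
    have hwB : ∀ i ≤ T x v, ∀ j, w i j < 2 ^ L ^ E := fun i hi j => by
      rw [hw]
      exact (hb x L v hL hv i hi j).trans_le (ppw hL2 (by omega))
    have hTL : T x v ≤ L ^ et := ht x L v hL hv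
    have hTB : T x v + 2 ≤ 2 ^ L ^ E := by
      have h1 : T x v + 2 ≤ L ^ E := by
        have h2 : L ^ et * 2 ≤ L ^ (et + 1) := by rw [pow_succ]; exact Nat.mul_le_mul_left _ hL2
        have h3 : L ^ (et + 1) * 2 ≤ L ^ (et + 2) := by
          rw [pow_succ L (et + 1)]; exact Nat.mul_le_mul_left _ hL2
        have h4 : L ^ (et + 2) ≤ L ^ E := pw hL2 (by omega)
        have h5 : 1 ≤ L ^ et := Nat.one_le_pow _ _ (by omega)
        omega
      exact h1.trans Nat.lt_two_pow_self.le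
    have hLE : L ≤ L ^ E := Nat.le_self_pow (by omega) L
    have hW : 2 ^ L ^ E ≤ 2 ^ L ^ (E * F + D) := ppw hL2 (by omega)
    -- first values
    have r1 : Run (2 ^ L ^ (E * F + D)) (seqAll m cg) σ [] (m * L ^ E)
        (Blk (N + m + 2 + m) N (w 0) σ) := by
      refine run_seqAll cg _ σ (n := m) (by omega) le_rfl fun j σ' h1 h2 => ?_
      have h3 : Env x σ' := env_of hσ h1 (h2 0 (by omega) (.inl (by omega)))
      have h4 := hcg j x L v σ' hL hv h3 fun i => (h2 (a i) (by have := ha i; omega)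
        (.inl (ha i))).trans (hav i)
      rw [hw]
      exact run_mono h4 (ppw hL2 ((hEj j).trans (by omega))) (pw hL2 (hEj j)) fun _ h => h
    refine Run.seqL (T₂ := L ^ E + (3 + ((L ^ et * (2 + 2 + (12 + m * L ^ (E * F) + m * 4)) +
      (2 + 1)) + 4))) (r1.mono le_rfl fun σ₁ h₁ => ?_)
      (le_trans (le_of_eq (by ring)) ((hD L hL2).trans (pw hL2 (by omega))))
    have hσ₁ : Env x σ₁ := hσ.blk hN0 (by omega) h₁
    have r2 := hcT x L v σ₁ hL hv hσ₁ fun i => (h₁.2.2 (a i) (by have := ha i; omega)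
      (.inl (ha i))).trans (hav i)
    refine Run.seqL (run_mono r2 (ppw hL2 (by omega)) (pw hL2 (show eT ≤ E by omega))
      fun σ₂ h₂ => ?_) le_rfl
    refine Run.seqL (T₁ := 3) (Run.assign (Nat.zero_le _) le_rfl ?_) le_rfl
    have h₃ : Lst N (w 0) 0 (T x v) σ (σ₂.set (N + m) 0) := by
      refine ⟨h₂.1.trans h₁.1, fun j => ?_, ?_, ?_, fun u hu => ?_⟩
      · rw [St.set_reg, if_neg (by omega), h₂.2.2 _ (by omega) (by omega)]; exact h₁.2.1 j
      · rw [St.set_reg, if_pos rfl]; rfl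
      · rw [St.set_reg, if_neg (by omega)]; exact h₂.2.1
      · rw [St.set_reg, if_neg (by omega), h₂.2.2 _ (by omega) (by omega)]
        exact h₁.2.2 u (by omega) (.inl hu)
    have r4 := run_loop (W := 2 ^ L ^ (E * F + D)) (B := L ^ (E * F)) (T := T x v) ch σ w
      (by omega) (fun i c hic j σ' h' => ?_) (σ₂.set (N + m) 0) h₃
    · refine Run.seqL (T₂ := 4) (run_mono r4 le_rfl (by gcongr) fun σ₅ h₅ => ?_) le_rfl
      refine Run.assign trivial le_rfl ?_
      have e5 : (Expr.var (N + j₀.val)).eval σ₅ = (w (T x v) j₀ : ℤ) := h₅.2.1 j₀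
      rw [e5, hw]
      refine ⟨h₅.1, ?_, fun u hu hur => ?_⟩
      · rw [St.set_reg, if_pos rfl]
      · rw [St.set_reg, if_neg hur]
        exact h₅.2.2.2.2 u hu
    · have h6 : Env x σ' := env_of hσ h'.1 (h'.2.2.2.2 0 hN0)
      have h7 := hch j x (L ^ E) (app3 v i (w i)) σ' (hL.mono hLE)
        (app3_all (p := fun z => z < 2 ^ L ^ E) (fun i => (hv i).trans_le
          (Nat.pow_le_pow_right (by omega) hLE)) (by omega) (hwB i (by omega))) h6
        (app3_rel (p := fun y z => σ'.reg y = z) (fun i => (h'.2.2.2.2 _ (ha i)).trans (hav i))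
          h'.2.2.1 h'.2.1)
      rw [← pow_mul] at h7
      have e7 : w (i + 1) j = h j x (app3 v i (w i)) := by rw [hw]; rfl
      rw [e7]
      refine run_mono h7 (ppw hL2 ?_) (pw hL2 ?_) fun _ h => h
      · exact (Nat.mul_le_mul_left E (hFj j)).trans (by omega)
      · exact Nat.mul_le_mul_left E (hFj j)

end Pool.Agent.Lib.PTC
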