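import Pool.Agent.Lib.PTC.Comp

/-! The number of binary digits. -/

set_option autoImplicit false
set_option linter.unusedVariables false

namespace Pool.Agent.Lib.PTC

open PRam

variable {S : List ℤ → ℕ} {σ : Type} [Tup σ]

theorem size_div_two (n : ℕ) : Nat.size (n / 2) = Nat.size n - 1 := by
  rcases Nat.eq_zero_or_pos n with h | h
  · subst h; simp
  · apply le_antisymm
    · rw [Nat.size_le]
      have h1 := Nat.lt_size_self n
      have h2 : 0 < Nat.size n := Nat.size_pos.2 h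
      rw [Nat.div_lt_iff_lt_mul (by omega), ← pow_succ, Nat.sub_add_cancel h2]
      exact h1
    · have h1 : Nat.size n ≤ Nat.size (n / 2) + 1 := by
        rw [Nat.size_le, pow_succ]
        have h2 := Nat.lt_size_self (n / 2)
        omega
      omega

/-- One pass of the loop. -/
def sizePass (u r : ℕ) : Cmd :=
  .seq (.assign u (.div (.var u) (.lit 2))) (.assign r (.add (.var r) (.lit 1)))

theorem run_sizeLoop {W V u r : ℕ} (hur : u ≠ r) (hW : Nat.size V + 2 ≤ W) (σ₀ σ : St)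
    (hu : σ.reg u = (V : ℤ)) (hr : σ.reg r = 0) (hm : σ.mem = σ₀.mem)
    (hreg : ∀ w, w ≠ u → w ≠ r → σ.reg w = σ₀.reg w) :
    Run W (.loop (.var u) (sizePass u r)) σ [] (Nat.size V * (2 + 2 + 12) + (2 + 1))
      (fun σ' => σ'.mem = σ₀.mem ∧ σ'.reg r = (Nat.size V : ℤ) ∧
        ∀ w, w ≠ u → w ≠ r → σ'.reg w = σ₀.reg w) := by
  refine (Run.loop (e := .var u) (p := sizePass u r) (fun k σ' => σ'.mem = σ₀.mem ∧
    (∀ w, w ≠ u → w ≠ r → σ'.reg w = σ₀.reg w) ∧ ∃ y : ℕ, σ'.reg u = (y : ℤ) ∧ k = Nat.size y ∧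
      σ'.reg r = ((Nat.size V - k : ℕ) : ℤ) ∧ k ≤ Nat.size V) 12 (Nat.size V)
    ⟨hm, hreg, V, hu, rfl, by rw [Nat.sub_self]; exact hr, le_rfl⟩ (fun _ _ _ => trivial) ?_).mono
    le_rfl ?_
  · rintro k σ₁ ⟨h1, h2, y, hy, rfl, h3, h4⟩ he
    have he' : y ≠ 0 := by
      intro h0
      apply he
      show σ₁.reg u = 0
      rw [hy, h0]
      rfl
    have hsz : 0 < Nat.size y := Nat.size_pos.2 (Nat.pos_of_ne_zero he')
    refine ⟨Nat.size y - 1, by omega, ?_⟩
    have e1 : (Expr.div (.var u) (.lit 2)).eval σ₁ = ((y / 2 : ℕ) : ℤ) := by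
      show σ₁.reg u / 2 = _
      rw [hy]
      push_cast
      rfl
    refine Run.seqL (T₁ := 6) (T₂ := 6) (Run.assign ⟨trivial, ?_⟩ le_rfl ?_) le_rfl
    · show (2 : ℤ).natAbs ≤ W
      have : (2 : ℤ).natAbs = 2 := rfl
      omega
    rw [e1]
    have e2 : (Expr.add (.var r) (.lit 1)).eval (σ₁.set u ((y / 2 : ℕ) : ℤ)) =
        ((Nat.size V - Nat.size y + 1 : ℕ) : ℤ) := by
      show (σ₁.set u ((y / 2 : ℕ) : ℤ)).reg r + 1 = _
      rw [St.set_reg, if_neg hur.symm, h3]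
      push_cast
      ring
    refine Run.assign ⟨trivial, ?_, ?_⟩ le_rfl ?_
    · show (1 : ℤ).natAbs ≤ W
      rw [Int.natAbs_one]
      omega
    · have e2' : (Expr.var r).eval (σ₁.set u ((y / 2 : ℕ) : ℤ)) +
        (Expr.lit 1).eval (σ₁.set u ((y / 2 : ℕ) : ℤ)) = ((Nat.size V - Nat.size y + 1 : ℕ) : ℤ) := e2
      rw [e2', Int.natAbs_natCast]
      omega
    rw [e2]
    refine ⟨h1, fun w hw hw' => ?_, y / 2, ?_, ?_, ?_, by omega⟩
    · rw [St.set_reg, if_neg hw', St.set_reg, if_neg hw]; exact h2 w hw hw'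
    · rw [St.set_reg, if_neg hur, St.set_reg, if_pos rfl]
    · rw [size_div_two]
    · rw [St.set_reg, if_pos rfl]
      congr 1
      omega
  · rintro σ₁ ⟨he, k, h1, h2, y, hy, rfl, h3, h4⟩
    refine ⟨h1, ?_, h2⟩
    have he' : σ₁.reg u = 0 := he
    rw [hy] at he'
    have hy0 : y = 0 := by exact_mod_cast he'
    rw [h3, hy0, Nat.size_zero, Nat.sub_zero]

theorem CompN.size : CompN S (k := 1) (fun _ v => Nat.size (v 0)) := by
  refine ⟨6, fun x L v hL hv => ?_, fun a r N ha hr hr0 har => ⟨.seq (.assign N (.var (a 0)))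
    (.seq (.assign r (.lit 0)) (.loop (.var N) (sizePass N r))), fun x L v σ hL hv hσ hav => ?_⟩⟩
  · have h1 : Nat.size (v 0) ≤ L := Nat.size_le.2 (hv 0)
    exact lt_pp hL (h1.trans_lt Nat.lt_two_pow_self) (by omega)
  · have hs : Nat.size (v 0) ≤ L := Nat.size_le.2 (hv 0)
    have hL2 := hL.two
    have hW : Nat.size (v 0) + 2 ≤ 2 ^ L ^ 6 := by
      have h1 : L + 2 ≤ L ^ 2 := by nlinarith
      have h2 : L ^ 2 ≤ L ^ 6 := pw hL2 (by omega)
      have h3 : L ^ 6 < 2 ^ L ^ 6 := Nat.lt_two_pow_self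
      omega
    have hT : 4 + (3 + (L * (2 + 2 + 12) + (2 + 1))) ≤ L ^ 6 := by
      have h1 : 2 ^ 5 ≤ L ^ 5 := Nat.pow_le_pow_left hL2 5
      have h2 : L ^ 6 = L ^ 5 * L := pow_succ L 5
      rw [h2]
      have h3 : 2 ^ 5 * L ≤ L ^ 5 * L := Nat.mul_le_mul_right _ h1
      omega
    refine Run.seqL (T₁ := 4) (Run.assign trivial le_rfl ?_) hT
    refine Run.seqL (T₁ := 3) (Run.assign (Nat.zero_le _) le_rfl ?_) le_rfl
    have e1 : (Expr.var (a 0)).eval σ = (v 0 : ℤ) := hav 0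
    rw [e1]
    refine (run_sizeLoop (V := v 0) (u := N) (r := r) (by omega) hW σ
      ((σ.set N (v 0 : ℤ)).set r ((Expr.lit 0).eval (σ.set N (v 0 : ℤ)))) ?_ ?_ rfl ?_).mono ?_ ?_
    · rw [St.set_reg, if_neg (by omega), St.set_reg, if_pos rfl]
    · rw [St.set_reg, if_pos rfl]; rfl
    · intro w h1 h2
      rw [St.set_reg, if_neg h2, St.set_reg, if_neg h1]
    · gcongr
    · rintro σ' ⟨h1, h2, h3⟩
      exact ⟨h1, h2, fun w hw hw' => h3 w (by omega) hw'⟩

/-- The number of binary digits. -/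
protected theorem Comp.size {f : List ℤ → σ → ℕ} (hf : Comp S f) : Comp S fun x w => Nat.size (f x w) := by
  rw [Comp.nat] at hf ⊢
  exact CompN.comp CompN.size fun _ => hf

end Pool.Agent.Lib.PTC
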